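import Mathlib

/-!
# The finite tables of the domino construction
-/

namespace Q43.Dom

/-- Comparison of the two degrees at a vertex of odd degree: `true` if there are more edges in the
first direction. -/
def sfun (a b c d : Bool) : Bool := (a && b) || ((a || b) && !(c || d))

/-- status of the horizontal edge at height `j` -/
def X (b tp : Bool) (j : Bool) : Bool := bif j then tp else b

/-- selection among the four corners -/
def sel4 (s00 s10 s01 s11 : Bool) (i j : Bool) : Bool :=
  bif i then (bif j then s11 else s10) else (bif j then s01 else s00)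

/-- the state of a corner after the move -/
def snext (b tp l r s00 s10 s01 s11 i j : Bool) : Bool :=
  bif (X b tp j ^^ X l r i) then sel4 s00 s10 s01 s11 i j else !(sel4 s00 s10 s01 s11 i j)

/-- the state of a corner at the three times -/
def sk (b tp l r s00 s10 s01 s11 i j : Bool) (k : Fin 3) : Bool :=
  if k = 0 then sel4 s00 s10 s01 s11 i j
  else if k = 1 then snext b tp l r s00 s10 s01 s11 i j
  else !(snext b tp l r s00 s10 s01 s11 i j)

/-- state of the corner at which both edges are present -/
def sR (b l s00 s10 s01 s11 : Bool) : Bool :=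
  sel4 s00 s10 s01 s11 (!l) (!b)

/-- The table of the directions. -/
def gad (b tp l r s00 s10 s01 s11 i j : Bool) (k : Fin 3) : Fin 3 × Bool :=
  if (b == tp) || (l == r) then
    if (X b tp j ^^ X l r i) &&
        ((k == 0 && sel4 s00 s10 s01 s11 i j) || (k == 1 && !(sel4 s00 s10 s01 s11 i j))) then
      if l == r then (0, !i) else (1, !j)
    else (2, sk b tp l r s00 s10 s01 s11 i j k)
  else
    if X b tp j then
      if X l r i then
        -- the corner `R`
        if k = 1 then (1, !j)
        else if sR b l s00 s10 s01 s11 then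
          if k = 0 then (0, !i) else (2, sk b tp l r s00 s10 s01 s11 i j k)
        else
          if k = 2 then (0, !i) else (2, sk b tp l r s00 s10 s01 s11 i j k)
      else
        -- the corner `P`
        if sR b l s00 s10 s01 s11 then
          if k = 0 then (0, !i) else (2, sk b tp l r s00 s10 s01 s11 i j k)
        else
          if k = 2 then (0, !i) else if k = 1 then (2, false) else
            (2, sk b tp l r s00 s10 s01 s11 i j k)
    else
      if X l r i then
        -- the corner `Q`
        if k = 1 then (1, !j) else (2, sk b tp l r s00 s10 s01 s11 i j k)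
      else (2, sk b tp l r s00 s10 s01 s11 i j k)

/-- consistency of the states with the edges -/
def good (b tp l r s00 s10 s01 s11 : Bool) : Bool :=
  (!(b ^^ l) || (s00 == b)) && (!(b ^^ r) || (s10 == b)) &&
  (!(tp ^^ l) || (s01 == tp)) && (!(tp ^^ r) || (s11 == tp))

/-- The compatibility of the table, part 1. -/
theorem tab1 : ∀ b tp l r s00 s10 s01 s11 : Bool, good b tp l r s00 s10 s01 s11 = true →
    ∀ i j : Bool, ∀ k : Fin 3, 
    (gad b tp l r s00 s10 s01 s11 i j k = (0, true) →
      i = false ∧ gad b tp l r s00 s10 s01 s11 true j k = (0, false)) ∧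
    (gad b tp l r s00 s10 s01 s11 i j k = (0, false) →
      i = true ∧ gad b tp l r s00 s10 s01 s11 false j k = (0, true)) := by
  decide +kernel

/-- The compatibility of the table, part 2. -/
theorem tab2 : ∀ b tp l r s00 s10 s01 s11 : Bool, good b tp l r s00 s10 s01 s11 = true →
    ∀ i j : Bool, ∀ k : Fin 3, 
    (gad b tp l r s00 s10 s01 s11 i j k = (1, true) →
      j = false ∧ gad b tp l r s00 s10 s01 s11 i true k = (1, false)) ∧
    (gad b tp l r s00 s10 s01 s11 i j k = (1, false) →
      j = true ∧ gad b tp l r s00 s10 s01 s11 i false k = (1, true)) := by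
  decide +kernel

/-- The compatibility of the table, part 3. -/
theorem tab3 : ∀ b tp l r s00 s10 s01 s11 : Bool, good b tp l r s00 s10 s01 s11 = true →
    ∀ i j : Bool, 
    (gad b tp l r s00 s10 s01 s11 i j 0 = (2, true) →
      gad b tp l r s00 s10 s01 s11 i j 1 = (2, false)) ∧
    (gad b tp l r s00 s10 s01 s11 i j 1 = (2, true) →
      gad b tp l r s00 s10 s01 s11 i j 2 = (2, false)) ∧
    (gad b tp l r s00 s10 s01 s11 i j 2 = (2, true) →
      sk b tp l r s00 s10 s01 s11 i j 2 = true) ∧
    (gad b tp l r s00 s10 s01 s11 i j 1 = (2, false) →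
      gad b tp l r s00 s10 s01 s11 i j 0 = (2, true)) := by
  decide +kernel

/-- The compatibility of the table, part 4. -/
theorem tab4 : ∀ b tp l r s00 s10 s01 s11 : Bool, good b tp l r s00 s10 s01 s11 = true →
    ∀ i j : Bool, 
    (gad b tp l r s00 s10 s01 s11 i j 2 = (2, false) →
      gad b tp l r s00 s10 s01 s11 i j 1 = (2, true)) ∧
    (gad b tp l r s00 s10 s01 s11 i j 0 = (2, false) →
      sk b tp l r s00 s10 s01 s11 i j 0 = false) ∧
    (sk b tp l r s00 s10 s01 s11 i j 0 = false →
      gad b tp l r s00 s10 s01 s11 i j 0 = (2, false)) ∧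
    (sk b tp l r s00 s10 s01 s11 i j 2 = true →
      gad b tp l r s00 s10 s01 s11 i j 2 = (2, true)) := by
  decide +kernel

end Q43.Dom
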