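import Mathlib

/-!
# Discrete potentials with values in `Bool` on `ℤ ^ (n + 3)`
-/

namespace Q43.Dom

/-- The lattice. -/
abbrev V (n : ℕ) := Fin (n + 3) → ℤ

/-- Standard basis vectors. -/
def e {n : ℕ} (i : Fin (n + 3)) : V n := Pi.single i 1

/-- Partial sums modulo two. -/
def natI (f : ℕ → Bool) : ℕ → Bool
  | 0 => false
  | m + 1 => natI f m ^^ f m

/-- Discrete integral over the integers. -/
def integ (a : ℤ → Bool) : ℤ → Bool
  | Int.ofNat m => natI (fun k => a (Int.ofNat k)) m
  | Int.negSucc m => natI (fun k => a (Int.negSucc k)) (m + 1)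

theorem integ_succ (a : ℤ → Bool) (n : ℤ) : integ a (n + 1) = (integ a n ^^ a n) := by
  match n with
  | Int.ofNat m => rfl
  | Int.negSucc 0 =>
    have : Int.negSucc 0 + 1 = Int.ofNat 0 := rfl
    rw [this]
    simp [integ, natI]
  | Int.negSucc (m + 1) =>
    have : Int.negSucc (m + 1) + 1 = Int.negSucc m := by
      rw [Int.negSucc_eq, Int.negSucc_eq]; push_cast; ring
    rw [this]
    change natI _ (m + 1) = (natI _ (m + 1 + 1) ^^ a (Int.negSucc (m + 1)))
    conv_rhs => rw [natI]
    generalize natI (fun k => a (Int.negSucc k)) (m + 1) = x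
    generalize a (Int.negSucc (m + 1)) = y
    revert x y
    decide

variable {n : ℕ}

theorem e_same (i : Fin (n + 3)) : (e i : V n) i = 1 := by simp [e]

theorem e_ne {i k : Fin (n + 3)} (h : k ≠ i) : (e i : V n) k = 0 := by
  simp [e, h]

/-- Integration along the coordinate `i`. -/
def ig (i : Fin (n + 3)) (b : V n → Bool) (v : V n) : Bool :=
  integ (fun m => b (Function.update v i m)) (v i)

theorem ig_same (i : Fin (n + 3)) (b : V n → Bool) (v : V n) :
    ig i b (v + e i) = (ig i b v ^^ b v) := by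
  unfold ig
  have h1 : ∀ m, Function.update (v + e i) i m = Function.update v i m := by
    intro m
    funext k
    by_cases hk : k = i
    · subst hk; simp
    · simp [Function.update_of_ne hk, e_ne hk]
  have h2 : (v + e i) i = v i + 1 := by rw [Pi.add_apply, e_same]
  simp only [h1, h2]
  rw [integ_succ]
  simp only [Function.update_eq_self]

theorem ig_inv (i k : Fin (n + 3)) (hik : k ≠ i) (b : V n → Bool)
    (hb : ∀ v, b (v + e k) = b v) (v : V n) : ig i b (v + e k) = ig i b v := by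
  unfold ig
  have h1 : ∀ m, Function.update (v + e k) i m = Function.update v i m + e k := by
    intro m
    funext l
    by_cases hl : l = i
    · subst hl; simp [e_ne hik.symm]
    · simp [Function.update_of_ne hl]
  have h2 : (v + e k) i = v i := by rw [Pi.add_apply, e_ne hik.symm, add_zero]
  simp only [h1, h2, hb]

theorem n12 : (1 : Fin (n + 3)) ≠ 2 := by
  intro h
  have := congrArg Fin.val h
  rw [Fin.val_two] at this
  simp at this

theorem n02 : (0 : Fin (n + 3)) ≠ 2 := by
  intro h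
  have := congrArg Fin.val h
  rw [Fin.val_two] at this
  simp at this

theorem n01 : (0 : Fin (n + 3)) ≠ 1 := by
  intro h
  have := congrArg Fin.val h
  simp at this

theorem potential (b0 b1 b2 : V n → Bool)
    (h21 : ∀ v, (b1 (v + e 2) ^^ b1 v) = (b2 (v + e 1) ^^ b2 v))
    (h20 : ∀ v, (b0 (v + e 2) ^^ b0 v) = (b2 (v + e 0) ^^ b2 v))
    (h10 : ∀ v, (b0 (v + e 1) ^^ b0 v) = (b1 (v + e 0) ^^ b1 v)) :
    ∃ G : V n → Bool, (∀ v, (G (v + e 2) ^^ G v) = b2 v) ∧
      (∀ v, (G (v + e 1) ^^ G v) = b1 v) ∧ (∀ v, (G (v + e 0) ^^ G v) = b0 v) := by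
  have n12 := @n12 n
  have n02 := @n02 n
  have n01 := @n01 n
  -- first integration
  set G1 := ig 2 b2 with hG1
  have d2G1 : ∀ v, G1 (v + e 2) = (G1 v ^^ b2 v) := ig_same 2 b2
  clear_value G1
  set c1 : V n → Bool := fun v => b1 v ^^ (G1 (v + e 1) ^^ G1 v) with hc1
  have c1inv : ∀ v, c1 (v + e 2) = c1 v := by
    intro v
    simp only [hc1]
    have k1 := h21 v
    have k2 := d2G1 v
    have k3 := d2G1 (v + e 1)
    have k4 : v + e 2 + e 1 = v + e 1 + e 2 := by abel
    rw [k4, k2, k3]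
    revert k1
    generalize b1 (v + e 2) = x1
    generalize b1 v = x2
    generalize b2 (v + e 1) = x3
    generalize b2 v = x4
    generalize G1 (v + e 1) = x5
    generalize G1 v = x6
    revert x1 x2 x3 x4 x5 x6
    decide
  set G2 := ig 1 c1 with hG2
  have d1G2 : ∀ v, G2 (v + e 1) = (G2 v ^^ c1 v) := ig_same 1 c1
  have d2G2 : ∀ v, G2 (v + e 2) = G2 v := ig_inv 1 2 n12.symm c1 c1inv
  clear_value G2
  set c0 : V n → Bool := fun v => b0 v ^^ (G1 (v + e 0) ^^ G1 v) ^^ (G2 (v + e 0) ^^ G2 v) with hc0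
  have c0inv2 : ∀ v, c0 (v + e 2) = c0 v := by
    intro v
    simp only [hc0]
    have k1 := h20 v
    have k4 : v + e 2 + e 0 = v + e 0 + e 2 := by abel
    rw [k4, d2G1 v, d2G1 (v + e 0), d2G2 v, d2G2 (v + e 0)]
    revert k1
    generalize b0 (v + e 2) = x1
    generalize b0 v = x2
    generalize b2 (v + e 0) = x3
    generalize b2 v = x4
    generalize G1 (v + e 0) = x5
    generalize G1 v = x6
    generalize G2 (v + e 0) = x7
    generalize G2 v = x8
    revert x1 x2 x3 x4 x5 x6 x7 x8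
    decide
  have c0inv1 : ∀ v, c0 (v + e 1) = c0 v := by
    intro v
    simp only [hc0]
    have k1 := h10 v
    have k4 : v + e 1 + e 0 = v + e 0 + e 1 := by abel
    rw [k4, d1G2 v, d1G2 (v + e 0)]
    simp only [hc1]
    have k5 : v + e 0 + e 1 = v + e 0 + e 1 := rfl
    revert k1
    generalize b0 (v + e 1) = x1
    generalize b0 v = x2
    generalize b1 (v + e 0) = x3
    generalize b1 v = x4
    generalize G1 (v + e 0) = x5
    generalize G1 v = x6
    generalize G2 (v + e 0) = x7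
    generalize G2 v = x8
    generalize G1 (v + e 1) = x9
    generalize G1 (v + e 0 + e 1) = x10
    intro k1
    have key : ∀ x1 x2 x3 x4 x5 x6 : Bool, (x1 ^^ x2) = (x3 ^^ x4) →
        ∀ x7 x8 x9 x10 : Bool, (x1 ^^ (x10 ^^ x9) ^^ (x7 ^^ (x3 ^^ (x10 ^^ x5)) ^^ (x8 ^^ (x4 ^^ (x9 ^^ x6))))) =
        (x2 ^^ (x5 ^^ x6) ^^ (x7 ^^ x8)) := by decide
    exact key x1 x2 x3 x4 x5 x6 k1 x7 x8 x9 x10
  set G3 := ig 0 c0 with hG3
  have d0G3 : ∀ v, G3 (v + e 0) = (G3 v ^^ c0 v) := ig_same 0 c0
  have d2G3 : ∀ v, G3 (v + e 2) = G3 v := ig_inv 0 2 n02.symm c0 c0inv2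
  have d1G3 : ∀ v, G3 (v + e 1) = G3 v := ig_inv 0 1 n01.symm c0 c0inv1
  clear_value G3
  refine ⟨fun v => G1 v ^^ (G2 v ^^ G3 v), ?_, ?_, ?_⟩
  · intro v
    simp only [d2G1, d2G2, d2G3]
    generalize b2 v = x1
    generalize G1 v = x2
    generalize G2 v = x3
    generalize G3 v = x4
    revert x1 x2 x3 x4
    decide
  · intro v
    simp only [d1G2, d1G3, hc1]
    generalize b1 v = x1
    generalize G1 v = x2
    generalize G2 v = x3
    generalize G3 v = x4
    generalize G1 (v + e 1) = x5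
    revert x1 x2 x3 x4 x5
    decide
  · intro v
    simp only [d0G3, hc0]
    generalize b0 v = x1
    generalize G1 v = x2
    generalize G2 v = x3
    generalize G3 v = x4
    generalize G1 (v + e 0) = x5
    generalize G2 (v + e 0) = x6
    revert x1 x2 x3 x4 x5 x6
    decide

end Q43.Dom
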