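import Mathlib

/-!
# Relaxation of a family of two-valued functions with separated jumps

`K` is a set of columns with a neighbour relation `adj`.  A function `F : K → ℤ → Bool` is
`Sep`arated if two jumps of `F` in neighbouring columns at times which differ by at most three
coincide.  Given such an `F` and a set `A` of points there is another one which agrees with `F`
on `A` and is `false` away from `A`.
-/

namespace Q43.Dom

/-- Two jumps in neighbouring columns at time distance at most three coincide. -/
def Sep {K : Type*} (adj : K → K → Prop) (F : K → ℤ → Bool) : Prop :=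
  ∀ c c' t t', adj c c' → F c t ≠ F c (t + 1) → F c' t' ≠ F c' (t' + 1) →
    |t - t'| ≤ 3 → c = c' ∧ t = t'

/-- a two valued function which changes between two times jumps in between -/
theorem exists_jump (f : ℤ → Bool) (a : ℤ) (n : ℕ) (h : f a ≠ f (a + n)) :
    ∃ t, a ≤ t ∧ t < a + n ∧ f t ≠ f (t + 1) := by
  induction n with
  | zero => simp at h
  | succ n ih =>
    by_cases h' : f a = f (a + n)
    · refine ⟨a + n, by omega, by push_cast; omega, ?_⟩
      rw [← h']
      have : a + (n : ℤ) + 1 = a + ((n + 1 : ℕ) : ℤ) := by push_cast; ring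
      rw [this]; exact h
    · obtain ⟨t, h1, h2, h3⟩ := ih h'
      exact ⟨t, h1, by push_cast; omega, h3⟩

section

variable {K : Type*} (adj : K → K → Prop) (nb : K → Finset K) (κ : K → ℤ)
  (F : K → ℤ → Bool) (A : Set (K × ℤ))

/-- The point lies in a column and a layer which meet `A`. -/
def Act (c : K) (j : ℤ) : Prop := ∃ p ∈ A, p.1 = c ∧ p.2 / 448 = j

/-- A neighbouring column and layer meet `A`. -/
def Near (c : K) (j : ℤ) : Prop := ∃ p ∈ A, adj c p.1 ∧ |p.2 / 448 - j| ≤ 1

open Classical in
/-- The value at the beginning of a layer. -/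
noncomputable def nodeVal (c : K) (j : ℤ) : Bool :=
  if Near adj A c j ∨ Near adj A c (j - 1) then F c (448 * j) else false

open Classical in
/-- The relaxed function. -/
noncomputable def relaxed (τn τs : K → ℤ → ℤ) (c : K) (t : ℤ) : Bool :=
  if Act A c (t / 448) then F c t
  else if t ≤ (if Near adj A c (t / 448) then τn c (t / 448) else τs c (t / 448))
    then nodeVal adj F A c (t / 448) else nodeVal adj F A c (t / 448 + 1)

theorem relax (hrefl : ∀ c, adj c c) (hsymm : ∀ c c', adj c c' → adj c' c)
    (hnb : ∀ c c', adj c c' → c' ∈ nb c) (hcard : ∀ c, (nb c).card ≤ 9)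
    (hκ0 : ∀ c, 0 ≤ κ c ∧ κ c < 4) (hκ : ∀ c c', adj c c' → κ c = κ c' → c = c')
    (hF : Sep adj F) :
    ∃ F1 : K → ℤ → Bool, (∀ p ∈ A, F1 p.1 p.2 = F p.1 p.2) ∧
      (∀ c t, (∀ p ∈ A, adj c p.1 → 1400 < |t - p.2|) → F1 c t = false) ∧ Sep adj F1 := by
  classical
  -- the times of the jumps near `A`
  have h1 : ∀ c j, ∃ τ : ℤ, 448 * j ≤ τ ∧ τ < 448 * (j + 1) ∧
      (F c (448 * j) ≠ F c (448 * (j + 1)) → F c τ ≠ F c (τ + 1)) := by
    intro c j
    by_cases h : F c (448 * j) = F c (448 * (j + 1))
    · exact ⟨448 * j, le_rfl, by omega, fun h' => absurd h h'⟩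
    · have h2 : F c (448 * j) ≠ F c (448 * j + (448 : ℕ)) := by
        have : 448 * j + ((448 : ℕ) : ℤ) = 448 * (j + 1) := by push_cast; ring
        rw [this]; exact h
      obtain ⟨t, ht1, ht2, ht3⟩ := exists_jump (F c) (448 * j) 448 h2
      exact ⟨t, ht1, by push_cast at ht2; omega, fun _ => ht3⟩
  choose τn hn1 hn2 hn3 using h1
  -- the times of the scheduled jumps
  have h2 : ∀ c j, ∃ τ : ℤ, 448 * j ≤ τ ∧ τ < 448 * (j + 1) ∧
      (∃ i : ℤ, τ = 4 * i + 4 * κ c ∧ (4 : ℤ) ∣ i) ∧
      (∀ c' j', adj c c' → |j - j'| ≤ 1 → 3 < |τ - τn c' j'|) := by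
    intro c j
    by_contra hcon
    push Not at hcon
    have hbad : ∀ i : ℕ, i < 28 → ∃ q : K × ℤ, q ∈ nb c ×ˢ Finset.Icc (-1 : ℤ) 1 ∧
        |(448 * j + 16 * i + 4 * κ c) - τn q.1 (j + q.2)| ≤ 3 := by
      intro i hi
      have hk := hκ0 c
      obtain ⟨c', j', ha, hj, hle⟩ := hcon (448 * j + 16 * i + 4 * κ c) (by omega) (by omega)
        ⟨112 * j + 4 * i, by ring, ⟨28 * j + i, by ring⟩⟩
      refine ⟨(c', j' - j), ?_, ?_⟩
      · rw [Finset.mem_product]
        refine ⟨hnb c c' ha, ?_⟩
        rw [Finset.mem_Icc]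
        rw [abs_le] at hj
        constructor <;> simp only <;> omega
      · have : j + (j' - j) = j' := by ring
        simp only [this]
        exact hle
    haveI : Nonempty (K × ℤ) := ⟨(c, 0)⟩
    choose! q hq1 hq2 using hbad
    have hc : (nb c ×ˢ Finset.Icc (-1 : ℤ) 1).card < (Finset.range 28).card := by
      rw [Finset.card_product, Finset.card_range]
      have h3 : (Finset.Icc (-1 : ℤ) 1).card = 3 := by decide
      rw [h3]
      have := hcard c
      omega
    obtain ⟨i, hi, i', hi', hne, heq⟩ := Finset.exists_ne_map_eq_of_card_lt_of_maps_to hc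
      (f := q) (fun i hi => hq1 i (Finset.mem_range.1 hi))
    have e1 := hq2 i (Finset.mem_range.1 hi)
    have e2 := hq2 i' (Finset.mem_range.1 hi')
    rw [heq] at e1
    rw [abs_le] at e1 e2
    omega
  choose τs hs1 hs2 hs3 hs4 using h2
  have hActNear : ∀ c j, Act A c j → Near adj A c j := by
    rintro c j ⟨p, hp, h1, h2⟩
    exact ⟨p, hp, by rw [h1]; exact hrefl c, by rw [h2]; simp⟩
  have hdiv : ∀ j : ℤ, (448 * j) / 448 = j := by intro j; omega
  -- the value at the nodes
  have hnode : ∀ c j, relaxed adj F A τn τs c (448 * j) = nodeVal adj F A c j := by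
    intro c j
    unfold relaxed
    rw [hdiv]
    by_cases h : Act A c j
    · rw [if_pos h]
      unfold nodeVal
      rw [if_pos (Or.inl (hActNear c j h))]
    · rw [if_neg h, if_pos]
      split_ifs with h'
      · exact hn1 c j
      · exact hs1 c j
  have hrange : ∀ t : ℤ, 448 * (t / 448) ≤ t ∧ t < 448 * (t / 448 + 1) := by intro t; omega
  -- description of the jumps
  have hjump : ∀ c t, relaxed adj F A τn τs c t ≠ relaxed adj F A τn τs c (t + 1) →
      (Act A c (t / 448) ∧ F c t ≠ F c (t + 1)) ∨
      (Near adj A c (t / 448) ∧ t = τn c (t / 448) ∧ F c t ≠ F c (t + 1)) ∨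
      (¬ Near adj A c (t / 448) ∧ t = τs c (t / 448)) := by
    intro c t hne
    have hr := hrange t
    -- value at `t + 1` through the layer of `t`
    have hval : relaxed adj F A τn τs c (t + 1) =
        if Act A c (t / 448) then F c (t + 1)
        else if t + 1 ≤ (if Near adj A c (t / 448) then τn c (t / 448) else τs c (t / 448))
          then nodeVal adj F A c (t / 448) else nodeVal adj F A c (t / 448 + 1) := by
      by_cases hlast : t + 1 = 448 * (t / 448 + 1)
      · rw [hlast, hnode]
        by_cases h : Act A c (t / 448)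
        · rw [if_pos h]
          unfold nodeVal
          rw [if_pos]
          right
          have : t / 448 + 1 - 1 = t / 448 := by ring
          rw [this]
          exact hActNear c _ h
        · rw [if_neg h, if_neg]
          split_ifs with h'
          · have := hn2 c (t / 448); omega
          · have := hs2 c (t / 448); omega
      · have hd : (t + 1) / 448 = t / 448 := by omega
        unfold relaxed
        rw [hd]
    rw [hval] at hne
    unfold relaxed at hne
    by_cases h : Act A c (t / 448)
    · rw [if_pos h, if_pos h] at hne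
      exact Or.inl ⟨h, hne⟩
    · rw [if_neg h, if_neg h] at hne
      by_cases h' : Near adj A c (t / 448)
      · right; left
        rw [if_pos h'] at hne
        have ht : t = τn c (t / 448) := by
          by_contra hc
          apply hne
          by_cases hle : t ≤ τn c (t / 448)
          · rw [if_pos hle, if_pos (by omega)]
          · rw [if_neg hle, if_neg (by omega)]
        refine ⟨h', ht, ?_⟩
        rw [if_pos (by omega), if_neg (by omega)] at hne
        unfold nodeVal at hne
        rw [if_pos (Or.inl h'), if_pos] at hne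
        · have := hn3 c (t / 448) hne
          rw [← ht] at this
          exact this
        · right
          have : t / 448 + 1 - 1 = t / 448 := by ring
          rw [this]; exact h'
      · right; right
        rw [if_neg h'] at hne
        refine ⟨h', ?_⟩
        by_contra hc
        apply hne
        by_cases hle : t ≤ τs c (t / 448)
        · rw [if_pos hle, if_pos (by omega)]
        · rw [if_neg hle, if_neg (by omega)]
  refine ⟨relaxed adj F A τn τs, ?_, ?_, ?_⟩
  · intro p hp
    unfold relaxed
    rw [if_pos]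
    exact ⟨p, hp, rfl, rfl⟩
  · intro c t hfar
    have hN : ∀ j : ℤ, |j - t / 448| ≤ 1 → ¬ Near adj A c j := by
      rintro j hj ⟨p, hp, ha, hpj⟩
      have := hfar p hp ha
      have hr := hrange t
      have hr' := hrange p.2
      rw [abs_le] at hj hpj
      rw [lt_abs] at this
      omega
    have hAct : ¬ Act A c (t / 448) := fun h => hN _ (by simp) (hActNear c _ h)
    have hv : ∀ j : ℤ, t / 448 ≤ j → j ≤ t / 448 + 1 → nodeVal adj F A c j = false := by
      intro j hj hj'
      unfold nodeVal
      rw [if_neg]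
      rintro (h | h)
      · exact hN j (by rw [abs_le]; omega) h
      · exact hN (j - 1) (by rw [abs_le]; omega) h
    unfold relaxed
    rw [if_neg hAct, hv _ le_rfl (by omega), hv _ (by omega) le_rfl]
    simp
  · intro c c' t t' hadj he he' htt
    have hjj : |t / 448 - t' / 448| ≤ 1 := by
      rw [abs_le] at htt ⊢
      omega
    have hjj' : |t' / 448 - t / 448| ≤ 1 := by rw [abs_sub_comm]; exact hjj
    have hActN : ∀ c c' t t', adj c c' → |t' / 448 - t / 448| ≤ 1 → Act A c' (t' / 448) →
        Near adj A c (t / 448) := by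
      rintro c c' t t' ha hj ⟨p, hp, h1, h2⟩
      exact ⟨p, hp, by rw [h1]; exact ha, by rw [h2]; exact hj⟩
    rcases hjump c t he with ⟨h1, h2⟩ | ⟨h1, h2, h3⟩ | ⟨h1, h2⟩
    · rcases hjump c' t' he' with ⟨g1, g2⟩ | ⟨g1, g2, g3⟩ | ⟨g1, g2⟩
      · exact hF c c' t t' hadj h2 g2 htt
      · exact hF c c' t t' hadj h2 g3 htt
      · exact absurd (hActN c' c t' t (hsymm _ _ hadj) hjj h1) g1
    · rcases hjump c' t' he' with ⟨g1, g2⟩ | ⟨g1, g2, g3⟩ | ⟨g1, g2⟩
      · exact hF c c' t t' hadj h3 g2 htt
      · exact hF c c' t t' hadj h3 g3 htt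
      · exfalso
        have := hs4 c' (t' / 448) c (t / 448) (hsymm _ _ hadj) hjj'
        rw [← g2, ← h2, abs_sub_comm] at this
        omega
    · rcases hjump c' t' he' with ⟨g1, g2⟩ | ⟨g1, g2, g3⟩ | ⟨g1, g2⟩
      · exact absurd (hActN c c' t t' hadj hjj' g1) h1
      · exfalso
        have := hs4 c (t / 448) c' (t' / 448) hadj hjj
        rw [← g2, ← h2] at this
        omega
      · obtain ⟨i, hi, ⟨m, hm⟩⟩ := hs3 c (t / 448)
        obtain ⟨i', hi', ⟨m', hm'⟩⟩ := hs3 c' (t' / 448)
        rw [← h2] at hi
        rw [← g2] at hi'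
        have k1 := hκ0 c
        have k2 := hκ0 c'
        rw [abs_le] at htt
        have hk : κ c = κ c' := by omega
        exact ⟨hκ c c' hadj hk, by omega⟩

end

end Q43.Dom
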