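import Mathlib
import Pool.Agent.Q43.Dom.Relax
import Pool.Agent.Q43.Dom.Potential

/-!
# A strongly irreducible system of planar graphs with sparse face moves
-/

namespace Q43.Dom

variable {n : ℕ}

/-- The alphabet of the auxiliary system. -/
abbrev St := Bool × Bool × Bool

/-- The edge in direction `0`. -/
def t1 (w : V n → St) (v : V n) : Bool := (w v).1

/-- The edge in direction `1`. -/
def t2 (w : V n → St) (v : V n) : Bool := (w v).2.1

/-- The face moves. -/
def hh (w : V n → St) (v : V n) : Bool := (w v).2.2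

/-- The auxiliary system: planar graphs with odd degrees in the planes of directions `0` and `1`,
which evolve in direction `2` by complementation and by sparse face moves. -/
def Sys (n : ℕ) : Set (V n → St) :=
  {w | (∀ v, ((t1 w v ^^ t1 w (v - e 0)) ^^ (t2 w v ^^ t2 w (v - e 1))) = true) ∧
    (∀ v, t1 w (v + e 2) = !(t1 w v ^^ (hh w v ^^ hh w (v - e 1)))) ∧
    (∀ v, t2 w (v + e 2) = !(t2 w v ^^ (hh w v ^^ hh w (v - e 0)))) ∧
    (∀ (v : V n) (a b c : ℤ), |a| ≤ 1 → |b| ≤ 1 → |c| ≤ 3 → hh w v = true →
      hh w (v + a • e 0 + b • e 1 + c • e 2) = true → a = 0 ∧ b = 0 ∧ c = 0)}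

/-- closeness in the sup norm -/
def cl (r : ℤ) (v a : V n) : Prop := ∀ i, |v i - a i| ≤ r

theorem cl_trans {r s : ℤ} {u v w : V n} (h : cl r u v) (h' : cl s v w) : cl (r + s) u w := by
  intro i
  have h1 := h i
  have h2 := h' i
  rw [abs_le] at *
  constructor <;> omega

theorem cl_symm {r : ℤ} {u v : V n} (h : cl r u v) : cl r v u := by
  intro i
  rw [abs_sub_comm]
  exact h i

theorem cl_mono {r s : ℤ} (hrs : r ≤ s) {u v : V n} (h : cl r u v) : cl s u v :=
  fun i => (h i).trans hrs

theorem e_coord (a b c : ℤ) (i : Fin (n + 3)) :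
    (a • e 0 + b • e 1 + c • e 2 : V n) i =
      (if i = 0 then a else 0) + (if i = 1 then b else 0) + (if i = 2 then c else 0) := by
  have h : ∀ k : Fin (n + 3), (e k : V n) i = if i = k then 1 else 0 := by
    intro k
    by_cases hk : i = k
    · subst hk; simp [e_same]
    · simp [hk, e_ne hk]
  simp only [Pi.add_apply, Pi.smul_apply, h, smul_eq_mul]
  split_ifs <;> simp

theorem coord0 (v : V n) (a b c : ℤ) : (v + a • e 0 + b • e 1 + c • e 2 : V n) 0 = v 0 + a := by
  have := e_coord (n := n) a b c 0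
  rw [if_pos rfl, if_neg n01, if_neg n02] at this
  simp only [Pi.add_apply] at this ⊢
  linarith

theorem coord1 (v : V n) (a b c : ℤ) : (v + a • e 0 + b • e 1 + c • e 2 : V n) 1 = v 1 + b := by
  have := e_coord (n := n) a b c 1
  rw [if_neg n01.symm, if_pos rfl, if_neg n12] at this
  simp only [Pi.add_apply] at this ⊢
  linarith

theorem coord2 (v : V n) (a b c : ℤ) : (v + a • e 0 + b • e 1 + c • e 2 : V n) 2 = v 2 + c := by
  have := e_coord (n := n) a b c 2
  rw [if_neg n02.symm, if_neg n12.symm, if_pos rfl] at this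
  simp only [Pi.add_apply] at this ⊢
  linarith

theorem cl_shift (v : V n) {a b c r : ℤ} (ha : |a| ≤ r) (hb : |b| ≤ r) (hc : |c| ≤ r) :
    cl r (v + a • e 0 + b • e 1 + c • e 2) v := by
  intro i
  have h := e_coord (n := n) a b c i
  have h2 : (v + a • e 0 + b • e 1 + c • e 2 : V n) i - v i =
      (if i = 0 then a else 0) + (if i = 1 then b else 0) + (if i = 2 then c else 0) := by
    rw [← h]
    simp only [Pi.add_apply]
    ring
  rw [h2]
  have hr : 0 ≤ r := le_trans (abs_nonneg a) ha
  by_cases h0 : i = 0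
  · subst h0
    rw [if_pos rfl, if_neg n01, if_neg n02]; simpa using ha
  · by_cases h1 : i = 1
    · subst h1
      rw [if_neg n01.symm, if_pos rfl, if_neg n12]; simpa using hb
    · by_cases h2 : i = 2
      · subst h2
        rw [if_neg n02.symm, if_neg n12.symm, if_pos rfl]; simpa using hc
      · rw [if_neg h0, if_neg h1, if_neg h2]; simpa using hr

/-- the column of a point -/
def col (v : V n) : V n := v + (- (v 2)) • e 2

theorem col_add (v : V n) : col v + (v 2) • e 2 = v := by
  unfold col
  rw [neg_smul]; abel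

/-- Planar neighbours. -/
def padj (c c' : V n) : Prop :=
  ∃ a b : ℤ, |a| ≤ 1 ∧ |b| ≤ 1 ∧ c' = c + a • e 0 + b • e 1

/-- Separation of the jumps in direction `2`. -/
def SepV (F : V n → Bool) : Prop :=
  ∀ (v : V n) (a b c : ℤ), |a| ≤ 1 → |b| ≤ 1 → |c| ≤ 3 → F v ≠ F (v + e 2) →
    F (v + a • e 0 + b • e 1 + c • e 2) ≠ F (v + a • e 0 + b • e 1 + c • e 2 + e 2) →
    a = 0 ∧ b = 0 ∧ c = 0

theorem relaxV (F : V n → Bool) (hF : SepV F) (A : Set (V n)) :
    ∃ F1 : V n → Bool, (∀ v ∈ A, F1 v = F v) ∧
      (∀ v, (∀ a ∈ A, ¬ cl 1400 v a) → F1 v = false) ∧ SepV F1 := by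
  classical
  have key := relax (K := V n) padj
    (fun c => (Finset.Icc (-1 : ℤ) 1 ×ˢ Finset.Icc (-1 : ℤ) 1).image
      (fun q => c + q.1 • e 0 + q.2 • e 1))
    (fun c => c 0 % 2 + 2 * (c 1 % 2)) (fun c t => F (c + t • e 2))
    {p | ∃ v ∈ A, p = (col v, v 2)}
    (fun c => ⟨0, 0, by simp, by simp, by simp⟩)
    (by
      rintro c c' ⟨a, b, ha, hb, rfl⟩
      refine ⟨-a, -b, by simpa using ha, by simpa using hb, ?_⟩
      simp only [neg_smul]; abel)
    (by
      rintro c c' ⟨a, b, ha, hb, rfl⟩
      rw [abs_le] at ha hb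
      rw [Finset.mem_image]
      exact ⟨(a, b), by rw [Finset.mem_product, Finset.mem_Icc, Finset.mem_Icc]; exact ⟨ha, hb⟩,
        rfl⟩)
    (by
      intro c
      refine (Finset.card_image_le).trans ?_
      rw [Finset.card_product]
      have h3 : (Finset.Icc (-1 : ℤ) 1).card = 3 := by decide
      rw [h3])
    (by
      intro c
      change 0 ≤ c 0 % 2 + 2 * (c 1 % 2) ∧ c 0 % 2 + 2 * (c 1 % 2) < 4
      omega)
    (by
      rintro c c' ⟨a, b, ha, hb, rfl⟩ hk
      have h0 := coord0 c a b 0
      have h1 := coord1 c a b 0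
      simp only [zero_smul, add_zero] at h0 h1
      simp only [h0, h1] at hk
      rw [abs_le] at ha hb
      have : a = 0 ∧ b = 0 := by omega
      rw [this.1, this.2]; simp)
    (by
      rintro c c' t t' ⟨a, b, ha, hb, rfl⟩ he he' htt
      have e1 : c + (t + 1) • e 2 = c + t • e 2 + e 2 := by
        rw [add_smul, one_smul]; abel
      have e2 : c + a • e 0 + b • e 1 + t' • e 2 =
          (c + t • e 2) + a • e 0 + b • e 1 + (t' - t) • e 2 := by
        rw [sub_smul]; abel
      have e3 : c + a • e 0 + b • e 1 + (t' + 1) • e 2 =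
          (c + t • e 2) + a • e 0 + b • e 1 + (t' - t) • e 2 + e 2 := by
        rw [sub_smul, add_smul, one_smul]; abel
      simp only [e1, e2, e3] at he he'
      obtain ⟨h1, h2, h3⟩ := hF _ a b (t' - t) ha hb (by rw [abs_sub_comm]; exact htt) he he'
      refine ⟨by rw [h1, h2]; simp, by omega⟩)
  obtain ⟨F1, hA, hfar, hsep⟩ := key
  refine ⟨fun v => F1 (col v) (v 2), ?_, ?_, ?_⟩
  · intro v hv
    have := hA (col v, v 2) ⟨v, hv, rfl⟩
    simp only [col_add] at this
    exact this
  · intro v hv
    apply hfar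
    rintro p ⟨a, ha, rfl⟩ ⟨x, y, hx, hy, hxy⟩
    have h1 := hv a ha
    by_contra hcon
    push Not at hcon
    simp only at hcon hxy
    apply h1
    intro i
    have h2 := congrFun hxy i
    by_cases hi : i = 2
    · subst hi; exact hcon
    · have h3 : (col a) i = a i := by simp [col, e_ne hi]
      have h4 : (col v) i = v i := by simp [col, e_ne hi]
      have h5 := cl_shift (n := n) (col v) (r := 1) hx hy (c := 0) (by simp) i
      simp only [zero_smul, add_zero] at h5
      rw [← hxy, h3, h4] at h5
      rw [abs_sub_comm]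
      exact h5.trans (by norm_num)
  · intro v a b c ha hb hc he he'
    have c2 : ∀ u : V n, col (u + e 2) = col u := by
      intro u
      unfold col
      have : (u + e 2 : V n) 2 = u 2 + 1 := by rw [Pi.add_apply, e_same]
      rw [this, neg_add, add_smul, neg_smul, neg_smul, one_smul]; abel
    have c3 : ∀ u : V n, (u + e 2 : V n) 2 = u 2 + 1 := by
      intro u; rw [Pi.add_apply, e_same]
    simp only [c2, c3] at he he'
    have c4 : col (v + a • e 0 + b • e 1 + c • e 2) = col v + a • e 0 + b • e 1 := by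
      unfold col
      rw [coord2, neg_add, add_smul, neg_smul, neg_smul]; abel
    have h := hsep (col v) (col (v + a • e 0 + b • e 1 + c • e 2)) (v 2)
      ((v + a • e 0 + b • e 1 + c • e 2 : V n) 2) ⟨a, b, ha, hb, c4⟩ he he'
      (by rw [coord2, abs_sub_comm]; simpa using hc)
    obtain ⟨h1, h2⟩ := h
    rw [coord2] at h2
    rw [c4] at h1
    have h5 := coord0 (col v) a b 0
    have h6 := coord1 (col v) a b 0
    simp only [zero_smul, add_zero] at h5 h6
    rw [← h1] at h5 h6
    omega

theorem glue (w w' : V n → St) (hw : w ∈ Sys n) (hw' : w' ∈ Sys n) (A B : Set (V n))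
    (hAB : ∀ a ∈ A, ∀ b ∈ B, ¬ cl 3000 a b) :
    ∃ w'' ∈ Sys n, (∀ v, (∃ a ∈ A, cl 5 v a) → w'' v = w v) ∧
      (∀ v, (∃ b ∈ B, cl 5 v b) → w'' v = w' v) := by
  obtain ⟨w1, w2, w3, w4⟩ := hw
  obtain ⟨u1, u2, u3, u4⟩ := hw'
  -- the potential of the difference
  obtain ⟨G, G2, G1, G0⟩ := potential (fun v => t2 w (v + e 0) ^^ t2 w' (v + e 0))
    (fun v => t1 w (v + e 1) ^^ t1 w' (v + e 1)) (fun v => hh w v ^^ hh w' v)
    (by
      intro v
      have a1 := w2 (v + e 1)
      have a2 := u2 (v + e 1)
      have a3 : v + e 1 - e 1 = v := by abel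
      have a4 : v + e 2 + e 1 = v + e 1 + e 2 := by abel
      rw [a3] at a1 a2
      rw [a4, a1, a2]
      generalize t1 w (v + e 1) = x1
      generalize t1 w' (v + e 1) = x2
      generalize hh w (v + e 1) = x3
      generalize hh w' (v + e 1) = x4
      generalize hh w v = x5
      generalize hh w' v = x6
      revert x1 x2 x3 x4 x5 x6
      decide)
    (by
      intro v
      have a1 := w3 (v + e 0)
      have a2 := u3 (v + e 0)
      have a3 : v + e 0 - e 0 = v := by abel
      have a4 : v + e 2 + e 0 = v + e 0 + e 2 := by abel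
      rw [a3] at a1 a2
      rw [a4, a1, a2]
      generalize t2 w (v + e 0) = x1
      generalize t2 w' (v + e 0) = x2
      generalize hh w (v + e 0) = x3
      generalize hh w' (v + e 0) = x4
      generalize hh w v = x5
      generalize hh w' v = x6
      revert x1 x2 x3 x4 x5 x6
      decide)
    (by
      intro v
      have a1 := w1 (v + e 0 + e 1)
      have a2 := u1 (v + e 0 + e 1)
      have a3 : v + e 0 + e 1 - e 0 = v + e 1 := by abel
      have a4 : v + e 0 + e 1 - e 1 = v + e 0 := by abel
      have a5 : v + e 1 + e 0 = v + e 0 + e 1 := by abel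
      rw [a3, a4] at a1 a2
      rw [a5]
      revert a1 a2
      generalize t1 w (v + e 0 + e 1) = x1
      generalize t1 w' (v + e 0 + e 1) = x2
      generalize t1 w (v + e 1) = x3
      generalize t1 w' (v + e 1) = x4
      generalize t2 w (v + e 0 + e 1) = x5
      generalize t2 w' (v + e 0 + e 1) = x6
      generalize t2 w (v + e 0) = x7
      generalize t2 w' (v + e 0) = x8
      revert x1 x2 x3 x4 x5 x6 x7 x8
      decide)
  -- antiderivatives of the moves
  set F : V n → Bool := ig 2 (hh w) with hFdef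
  have dF : ∀ v, F (v + e 2) = (F v ^^ hh w v) := ig_same 2 (hh w)
  clear_value F
  set F' : V n → Bool := fun v => F v ^^ G v with hF'def
  have dF' : ∀ v, F' (v + e 2) = (F' v ^^ hh w' v) := by
    intro v
    have k := G2 v
    simp only [hF'def]
    rw [dF]
    revert k
    generalize G (v + e 2) = x1
    generalize G v = x2
    generalize hh w v = x3
    generalize hh w' v = x4
    generalize F v = x5
    revert x1 x2 x3 x4 x5
    decide
  have hsep : ∀ (g : V n → Bool) (k : V n → Bool),
      (∀ (v : V n) (a b c : ℤ), |a| ≤ 1 → |b| ≤ 1 → |c| ≤ 3 → k v = true →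
      k (v + a • e 0 + b • e 1 + c • e 2) = true → a = 0 ∧ b = 0 ∧ c = 0) →
      (∀ v, g (v + e 2) = (g v ^^ k v)) → SepV g := by
    intro g k hk hg v a b c ha hb hc he he'
    refine hk v a b c ha hb hc ?_ ?_
    · rw [hg] at he
      revert he
      generalize g v = x1
      generalize k v = x2
      revert x1 x2
      decide
    · rw [hg] at he'
      revert he'
      generalize g (v + a • e 0 + b • e 1 + c • e 2) = x1
      generalize k (v + a • e 0 + b • e 1 + c • e 2) = x2
      revert x1 x2
      decide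
  obtain ⟨F1, f1, f2, f3⟩ := relaxV F (hsep F _ w4 dF) {v | ∃ a ∈ A, cl 7 v a}
  obtain ⟨F1', g1, g2, g3⟩ := relaxV F' (hsep F' _ u4 dF') {v | ∃ b ∈ B, cl 7 v b}
  set H : V n → Bool := fun v => F v ^^ (F1 v ^^ F1' v) with hH
  have clA : ∀ v, F1 v = true → ∃ a ∈ A, cl 1407 v a := by
    intro v hv
    by_contra hcon
    push Not at hcon
    have := f2 v (by
      rintro v' ⟨a, ha, hav⟩ hvv
      exact hcon a ha (cl_trans hvv hav))
    rw [this] at hv
    exact Bool.noConfusion hv
  have clB : ∀ v, F1' v = true → ∃ b ∈ B, cl 1407 v b := by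
    intro v hv
    by_contra hcon
    push Not at hcon
    have := g2 v (by
      rintro v' ⟨a, ha, hav⟩ hvv
      exact hcon a ha (cl_trans hvv hav))
    rw [this] at hv
    exact Bool.noConfusion hv
  have HA : ∀ v, (∃ a ∈ A, cl 7 v a) → H v = false := by
    rintro v ⟨a, ha, hav⟩
    have e1 : F1 v = F v := f1 v ⟨a, ha, hav⟩
    have e2 : F1' v = false := by
      by_contra hcon
      obtain ⟨b, hb, hbv⟩ := clB v (by simpa using hcon)
      exact hAB a ha b hb (cl_mono (by norm_num) (cl_trans (cl_symm hav) hbv))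
    simp only [hH]
    rw [e1, e2]
    generalize F v = x
    revert x
    decide
  have HB : ∀ v, (∃ b ∈ B, cl 7 v b) → H v = G v := by
    rintro v ⟨b, hb, hbv⟩
    have e1 : F1' v = F' v := g1 v ⟨b, hb, hbv⟩
    have e2 : F1 v = false := by
      by_contra hcon
      obtain ⟨a, ha, hav⟩ := clA v (by simpa using hcon)
      exact hAB a ha b hb (cl_mono (by norm_num) (cl_trans (cl_symm hav) hbv))
    simp only [hH]
    rw [e1, e2]
    simp only [hF'def]
    generalize F v = x
    generalize G v = y
    revert x y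
    decide
  set w'' : V n → St := fun v =>
    (t1 w v ^^ (H v ^^ H (v - e 1)), t2 w v ^^ (H v ^^ H (v - e 0)), hh w v ^^ (H (v + e 2) ^^ H v))
    with hw''
  have x1 : ∀ v, t1 w'' v = (t1 w v ^^ (H v ^^ H (v - e 1))) := fun v => rfl
  have x2 : ∀ v, t2 w'' v = (t2 w v ^^ (H v ^^ H (v - e 0))) := fun v => rfl
  have x3 : ∀ v, hh w'' v = (hh w v ^^ (H (v + e 2) ^^ H v)) := fun v => rfl
  clear_value w''
  have x4 : ∀ v, hh w'' v = ((F1 (v + e 2) ^^ F1 v) ^^ (F1' (v + e 2) ^^ F1' v)) := by
    intro v
    rw [x3]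
    simp only [hH]
    rw [dF]
    generalize F v = y1
    generalize hh w v = y2
    generalize F1 (v + e 2) = y3
    generalize F1 v = y4
    generalize F1' (v + e 2) = y5
    generalize F1' v = y6
    revert y1 y2 y3 y4 y5 y6
    decide
  have m1 : ∀ v : V n, cl 1 (v - e 1) v := by
    intro v
    have := cl_shift v (a := 0) (b := -1) (c := 0) (r := 1) (by simp) (by simp) (by simp)
    simpa [sub_eq_add_neg] using this
  have m0 : ∀ v : V n, cl 1 (v - e 0) v := by
    intro v
    have := cl_shift v (a := -1) (b := 0) (c := 0) (r := 1) (by simp) (by simp) (by simp)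
    simpa [sub_eq_add_neg] using this
  have m2 : ∀ v : V n, cl 1 (v + e 2) v := by
    intro v
    have := cl_shift v (a := 0) (b := 0) (c := 1) (r := 1) (by simp) (by simp) (by simp)
    simpa using this
  refine ⟨w'', ⟨?_, ?_, ?_, ?_⟩, ?_, ?_⟩
  · intro v
    have k := w1 v
    rw [x1, x2, x1, x2]
    have a1 : v - e 0 - e 1 = v - e 1 - e 0 := by abel
    rw [a1]
    revert k
    generalize t1 w v = y1
    generalize t1 w (v - e 0) = y2
    generalize t2 w v = y3
    generalize t2 w (v - e 1) = y4
    generalize H v = y5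
    generalize H (v - e 0) = y6
    generalize H (v - e 1) = y7
    generalize H (v - e 1 - e 0) = y8
    revert y1 y2 y3 y4 y5 y6 y7 y8
    decide
  · intro v
    have k := w2 v
    rw [x1, x1, x3, x3]
    have a1 : v - e 1 + e 2 = v + e 2 - e 1 := by abel
    rw [a1, k]
    generalize t1 w v = y1
    generalize hh w v = y2
    generalize hh w (v - e 1) = y3
    generalize H v = y4
    generalize H (v + e 2) = y5
    generalize H (v - e 1) = y6
    generalize H (v + e 2 - e 1) = y7
    revert y1 y2 y3 y4 y5 y6 y7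
    decide
  · intro v
    have k := w3 v
    rw [x2, x2, x3, x3]
    have a1 : v - e 0 + e 2 = v + e 2 - e 0 := by abel
    rw [a1, k]
    generalize t2 w v = y1
    generalize hh w v = y2
    generalize hh w (v - e 0) = y3
    generalize H v = y4
    generalize H (v + e 2) = y5
    generalize H (v - e 0) = y6
    generalize H (v + e 2 - e 0) = y7
    revert y1 y2 y3 y4 y5 y6 y7
    decide
  · intro v a b c ha hb hc he he'
    have claim : ∀ u, hh w'' u = true → F1 u ≠ F1 (u + e 2) ∨ F1' u ≠ F1' (u + e 2) := by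
      intro u hu
      rw [x4] at hu
      revert hu
      generalize F1 u = y1
      generalize F1 (u + e 2) = y2
      generalize F1' u = y3
      generalize F1' (u + e 2) = y4
      revert y1 y2 y3 y4
      decide
    have nA : ∀ u, F1 u ≠ F1 (u + e 2) → ∃ a ∈ A, cl 1408 u a := by
      intro u hu
      by_cases h1 : F1 u = true
      · obtain ⟨a, ha, h⟩ := clA u h1
        exact ⟨a, ha, cl_mono (by norm_num) h⟩
      · have h2 : F1 (u + e 2) = true := by
          revert hu h1
          generalize F1 u = y1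
          generalize F1 (u + e 2) = y2
          revert y1 y2
          decide
        obtain ⟨a, ha, h⟩ := clA _ h2
        exact ⟨a, ha, cl_trans (cl_symm (m2 u)) h⟩
    have nB : ∀ u, F1' u ≠ F1' (u + e 2) → ∃ b ∈ B, cl 1408 u b := by
      intro u hu
      by_cases h1 : F1' u = true
      · obtain ⟨a, ha, h⟩ := clB u h1
        exact ⟨a, ha, cl_mono (by norm_num) h⟩
      · have h2 : F1' (u + e 2) = true := by
          revert hu h1
          generalize F1' u = y1
          generalize F1' (u + e 2) = y2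
          revert y1 y2
          decide
        obtain ⟨a, ha, h⟩ := clB _ h2
        exact ⟨a, ha, cl_trans (cl_symm (m2 u)) h⟩
    have hcl : cl 3 (v + a • e 0 + b • e 1 + c • e 2) v :=
      cl_shift v (ha.trans (by norm_num)) (hb.trans (by norm_num)) hc
    rcases claim v he with h1 | h1
    · rcases claim _ he' with h2 | h2
      · exact f3 v a b c ha hb hc h1 h2
      · exfalso
        obtain ⟨p, hp, hpv⟩ := nA v h1
        obtain ⟨q, hq, hqv⟩ := nB _ h2
        exact hAB p hp q hq (cl_mono (by norm_num)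
          (cl_trans (cl_trans (cl_symm hpv) (cl_symm hcl)) hqv))
    · rcases claim _ he' with h2 | h2
      · exfalso
        obtain ⟨p, hp, hpv⟩ := nA _ h2
        obtain ⟨q, hq, hqv⟩ := nB v h1
        exact hAB p hp q hq (cl_mono (by norm_num)
          (cl_trans (cl_trans (cl_symm hpv) hcl) hqv))
      · exact g3 v a b c ha hb hc h1 h2
  · rintro v ⟨a, ha, hav⟩
    have c1 : H v = false := HA v ⟨a, ha, cl_mono (by norm_num) hav⟩
    have c2 : H (v - e 1) = false := HA _ ⟨a, ha, cl_mono (by norm_num) (cl_trans (m1 v) hav)⟩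
    have c3 : H (v - e 0) = false := HA _ ⟨a, ha, cl_mono (by norm_num) (cl_trans (m0 v) hav)⟩
    have c4 : H (v + e 2) = false := HA _ ⟨a, ha, cl_mono (by norm_num) (cl_trans (m2 v) hav)⟩
    have q1 : t1 w'' v = t1 w v := by rw [x1, c1, c2]; simp
    have q2 : t2 w'' v = t2 w v := by rw [x2, c1, c3]; simp
    have q3 : hh w'' v = hh w v := by rw [x3, c1, c4]; simp
    exact Prod.ext q1 (Prod.ext q2 q3)
  · rintro v ⟨b, hb, hbv⟩
    have c1 : H v = G v := HB v ⟨b, hb, cl_mono (by norm_num) hbv⟩
    have c2 : H (v - e 1) = G (v - e 1) :=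
      HB _ ⟨b, hb, cl_mono (by norm_num) (cl_trans (m1 v) hbv)⟩
    have c3 : H (v - e 0) = G (v - e 0) :=
      HB _ ⟨b, hb, cl_mono (by norm_num) (cl_trans (m0 v) hbv)⟩
    have c4 : H (v + e 2) = G (v + e 2) :=
      HB _ ⟨b, hb, cl_mono (by norm_num) (cl_trans (m2 v) hbv)⟩
    have q1 : t1 w'' v = t1 w' v := by
      have k := G1 (v - e 1)
      have a1 : v - e 1 + e 1 = v := by abel
      rw [a1] at k
      rw [x1, c1, c2, k]
      generalize t1 w v = y1
      generalize t1 w' v = y2
      revert y1 y2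
      decide
    have q2 : t2 w'' v = t2 w' v := by
      have k := G0 (v - e 0)
      have a1 : v - e 0 + e 0 = v := by abel
      rw [a1] at k
      rw [x2, c1, c3, k]
      generalize t2 w v = y1
      generalize t2 w' v = y2
      revert y1 y2
      decide
    have q3 : hh w'' v = hh w' v := by
      have k := G2 v
      rw [x3, c1, c4, k]
      generalize hh w v = y1
      generalize hh w' v = y2
      revert y1 y2
      decide
    exact Prod.ext q1 (Prod.ext q2 q3)

end Q43.Dom
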