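import Mathlib
import Pool.Agent.Q43.Dom.System
import Pool.Agent.Q43.Dom.Gadget

/-!
# The domino tiling of an element of the auxiliary system
-/

namespace Q43.Dom

variable {n : ℕ}

/-- The state of a vertex. -/
def ss (w : V n → St) (v : V n) : Bool :=
  sfun (t1 w v) (t1 w (v - e 0)) (t2 w v) (t2 w (v - e 1))

/-- `0` or `1` -/
def bI (b : Bool) : ℤ := if b then 1 else 0

theorem fin3 : ∀ k : Fin 3, k = 0 ∨ k = 1 ∨ k = 2 := by decide

/-- Offsets. -/
def off (o : Bool × Bool × Fin 3) : V n :=
  bI o.1 • e 0 + bI o.2.1 • e 1 + ((o.2.2 : ℕ) : ℤ) • e 2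

open Classical in
/-- A selected offset with `P`. -/
noncomputable def sel (P : Bool × Bool × Fin 3 → Bool) : Option (Bool × Bool × Fin 3) :=
  if h : ∃ o, P o = true then some h.choose else none

theorem sel_some {P : Bool × Bool × Fin 3 → Bool} {o} (h : sel P = some o) : P o = true := by
  classical
  unfold sel at h
  split_ifs at h with h'
  have := h'.choose_spec
  rw [Option.some.injEq] at h
  rw [h] at this
  exact this

theorem sel_none {P : Bool × Bool × Fin 3 → Bool} (h : sel P = none) (o) : P o = false := by
  classical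
  unfold sel at h
  split_ifs at h with h'
  by_contra hc
  exact h' ⟨o, by simpa using hc⟩

theorem sel_none' {P : Bool × Bool × Fin 3 → Bool} (h : ∀ o, P o = false) : sel P = none := by
  cases h' : sel P with
  | none => rfl
  | some o => have := sel_some h'; rw [h o] at this; exact Bool.noConfusion this

theorem sel_unique {P : Bool × Bool × Fin 3 → Bool} {o} (ho : P o = true)
    (h : ∀ o', P o' = true → o' = o) : sel P = some o := by
  cases h' : sel P with
  | none => have := sel_none h' o; rw [ho] at this; exact Bool.noConfusion this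
  | some o' => rw [h o' (sel_some h')]

/-- The direction given by the move at the face `f`. -/
def dat (w : V n → St) (f : V n) (o : Bool × Bool × Fin 3) : Fin 3 × Bool :=
  gad (t1 w f) (t1 w (f + e 1)) (t2 w f) (t2 w (f + e 0)) (ss w f) (ss w (f + e 0))
    (ss w (f + e 1)) (ss w (f + e 0 + e 1)) o.1 o.2.1 o.2.2

/-- The domino tiling, in the directions `0, 1, 2`. -/
noncomputable def Phi (w : V n → St) (v : V n) : Fin 3 × Bool :=
  match sel (fun o => hh w (v - off o)) with
  | some o => dat w (v - off o) o
  | none => (2, ss w v)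

/-- the four faces around a vertex -/
theorem ss_next (w : V n → St) (hw : w ∈ Sys n) (v : V n) :
    ss w (v + e 2) = sfun (!(t1 w v ^^ (hh w v ^^ hh w (v - e 1))))
      (!(t1 w (v - e 0) ^^ (hh w (v - e 0) ^^ hh w (v - e 0 - e 1))))
      (!(t2 w v ^^ (hh w v ^^ hh w (v - e 0))))
      (!(t2 w (v - e 1) ^^ (hh w (v - e 1) ^^ hh w (v - e 0 - e 1)))) := by
  obtain ⟨w1, w2, w3, w4⟩ := hw
  unfold ss
  have a1 : v + e 2 - e 0 = v - e 0 + e 2 := by abel
  have a2 : v + e 2 - e 1 = v - e 1 + e 2 := by abel
  have a3 : v - e 1 - e 0 = v - e 0 - e 1 := by abel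
  rw [a1, a2, w2 v, w2 (v - e 0), w3 v, w3 (v - e 1), a3]

theorem parity (w : V n → St) (hw : w ∈ Sys n) (v : V n) :
    ((t1 w v ^^ t1 w (v - e 0)) ^^ (t2 w v ^^ t2 w (v - e 1))) = true := hw.1 v

theorem evo0 (w : V n → St) (hw : w ∈ Sys n) (v : V n)
    (hA : hh w v = false) (hB : hh w (v - e 1) = false) (hC : hh w (v - e 0) = false)
    (hD : hh w (v - e 0 - e 1) = false) : ss w (v + e 2) = !(ss w v) := by
  have hp := parity w hw v
  rw [ss_next w hw, hA, hB, hC, hD]
  unfold ss
  revert hp
  generalize t1 w v = a
  generalize t1 w (v - e 0) = b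
  generalize t2 w v = c
  generalize t2 w (v - e 1) = d
  revert a b c d
  decide

theorem evoA (w : V n → St) (hw : w ∈ Sys n) (v : V n)
    (hA : hh w v = true) (hB : hh w (v - e 1) = false) (hC : hh w (v - e 0) = false)
    (hD : hh w (v - e 0 - e 1) = false) :
    ss w (v + e 2) = bif (t1 w v ^^ t2 w v) then ss w v else !(ss w v) := by
  have hp := parity w hw v
  rw [ss_next w hw, hA, hB, hC, hD]
  unfold ss
  revert hp
  generalize t1 w v = a
  generalize t1 w (v - e 0) = b
  generalize t2 w v = c
  generalize t2 w (v - e 1) = d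
  revert a b c d
  decide

theorem evoB (w : V n → St) (hw : w ∈ Sys n) (v : V n)
    (hA : hh w v = false) (hB : hh w (v - e 1) = true) (hC : hh w (v - e 0) = false)
    (hD : hh w (v - e 0 - e 1) = false) :
    ss w (v + e 2) = bif (t1 w v ^^ t2 w (v - e 1)) then ss w v else !(ss w v) := by
  have hp := parity w hw v
  rw [ss_next w hw, hA, hB, hC, hD]
  unfold ss
  revert hp
  generalize t1 w v = a
  generalize t1 w (v - e 0) = b
  generalize t2 w v = c
  generalize t2 w (v - e 1) = d
  revert a b c d
  decide

theorem evoC (w : V n → St) (hw : w ∈ Sys n) (v : V n)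
    (hA : hh w v = false) (hB : hh w (v - e 1) = false) (hC : hh w (v - e 0) = true)
    (hD : hh w (v - e 0 - e 1) = false) :
    ss w (v + e 2) = bif (t1 w (v - e 0) ^^ t2 w v) then ss w v else !(ss w v) := by
  have hp := parity w hw v
  rw [ss_next w hw, hA, hB, hC, hD]
  unfold ss
  revert hp
  generalize t1 w v = a
  generalize t1 w (v - e 0) = b
  generalize t2 w v = c
  generalize t2 w (v - e 1) = d
  revert a b c d
  decide

theorem evoD (w : V n → St) (hw : w ∈ Sys n) (v : V n)
    (hA : hh w v = false) (hB : hh w (v - e 1) = false) (hC : hh w (v - e 0) = false)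
    (hD : hh w (v - e 0 - e 1) = true) :
    ss w (v + e 2) = bif (t1 w (v - e 0) ^^ t2 w (v - e 1)) then ss w v else !(ss w v) := by
  have hp := parity w hw v
  rw [ss_next w hw, hA, hB, hC, hD]
  unfold ss
  revert hp
  generalize t1 w v = a
  generalize t1 w (v - e 0) = b
  generalize t2 w v = c
  generalize t2 w (v - e 1) = d
  revert a b c d
  decide

theorem bI_abs (b b' : Bool) : |bI b - bI b'| ≤ 1 := by
  revert b b'; decide

/-- there is at most one move nearby -/
theorem ev_unique (w : V n → St) (hw : w ∈ Sys n) (f u : V n) (hf : hh w f = true)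
    (a b c : ℤ) (ha : |a| ≤ 1) (hb : |b| ≤ 1) (hc : |c| ≤ 3)
    (hu : u = f + a • e 0 + b • e 1 + c • e 2) (hne : a ≠ 0 ∨ b ≠ 0 ∨ c ≠ 0) :
    hh w u = false := by
  by_contra hcon
  have h2 : hh w u = true := by simpa using hcon
  rw [hu] at h2
  have := hw.2.2.2 f a b c ha hb hc hf h2
  omega

theorem Phi_ev (w : V n → St) (hw : w ∈ Sys n) (f : V n) (hf : hh w f = true)
    (o : Bool × Bool × Fin 3) : Phi w (f + off o) = dat w f o := by
  have hs : sel (fun o' => hh w (f + off o - off o')) = some o := by
    apply sel_unique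
    · simp only [add_sub_cancel_right]; exact hf
    · intro o' ho'
      by_contra hne
      obtain ⟨i, j, k⟩ := o
      obtain ⟨i', j', k'⟩ := o'
      have hk : |((k : ℕ) : ℤ) - ((k' : ℕ) : ℤ)| ≤ 3 := by
        have := k.2; have := k'.2
        rw [abs_le]; constructor <;> omega
      have := ev_unique w hw f (f + off (i, j, k) - off (i', j', k')) hf
        (bI i - bI i') (bI j - bI j') (((k : ℕ) : ℤ) - ((k' : ℕ) : ℤ)) (bI_abs _ _) (bI_abs _ _)
        hk (by simp only [off, sub_smul]; abel) (by
          by_contra hall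
          push Not at hall
          obtain ⟨h1, h2, h3⟩ := hall
          apply hne
          have q1 : i' = i := by
            revert h1; generalize i = x; generalize i' = y; revert x y; decide
          have q2 : j' = j := by
            revert h2; generalize j = x; generalize j' = y; revert x y; decide
          have q3 : k' = k := by ext; omega
          rw [q1, q2, q3])
      rw [this] at ho'
      exact Bool.noConfusion ho'
  unfold Phi
  rw [hs]
  simp only [add_sub_cancel_right]

theorem Phi_none (w : V n → St) (v : V n) (h : ∀ o, hh w (v - off o) = false) :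
    Phi w v = (2, ss w v) := by
  unfold Phi
  rw [sel_none' h]

/-- the states at the corners of a moved face -/
theorem ss_corner (w : V n → St) (hw : w ∈ Sys n) (f : V n) (hf : hh w f = true)
    (i j : Bool) (k : Fin 3) :
    ss w (f + off (i, j, k)) = sk (t1 w f) (t1 w (f + e 1)) (t2 w f) (t2 w (f + e 0)) (ss w f)
      (ss w (f + e 0)) (ss w (f + e 1)) (ss w (f + e 0 + e 1)) i j k := by
  have U := ev_unique w hw f
  -- time zero
  have h0 : ∀ i j, ss w (f + off (i, j, 0)) = sel4 (ss w f)
      (ss w (f + e 0)) (ss w (f + e 1)) (ss w (f + e 0 + e 1)) i j := by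
    intro i j
    rcases i <;> rcases j
    · simp [off, bI, sel4]
    · simp [off, bI, sel4]
    · simp [off, bI, sel4]
    · simp [off, bI, sel4, add_assoc]
  have h1 : ∀ i j, ss w (f + off (i, j, 1)) = snext (t1 w f) (t1 w (f + e 1)) (t2 w f)
      (t2 w (f + e 0)) (ss w f) (ss w (f + e 0)) (ss w (f + e 1)) (ss w (f + e 0 + e 1)) i j := by
    intro i j
    rcases i <;> rcases j
    · have := evoA w hw f hf
        (U (f - e 1) hf 0 (-1) 0 (by simp) (by simp) (by simp) (by simp [sub_eq_add_neg]) (by simp))
        (U (f - e 0) hf (-1) 0 0 (by simp) (by simp) (by simp) (by simp [sub_eq_add_neg]) (by simp))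
        (U (f - e 0 - e 1) hf (-1) (-1) 0 (by simp) (by simp) (by simp)
          (by simp [sub_eq_add_neg]) (by simp))
      simp only [snext, sel4, X, cond_false]
      rw [← this]
      congr 1
      simp [off, bI]
    · have a1 : f + e 1 - e 1 = f := by abel
      have := evoB w hw (f + e 1)
        (U (f + e 1) hf 0 1 0 (by simp) (by simp) (by simp) (by simp) (by simp))
        (by rw [a1]; exact hf)
        (U (f + e 1 - e 0) hf (-1) 1 0 (by simp) (by simp) (by simp) (by simp; abel) (by simp))
        (U (f + e 1 - e 0 - e 1) hf (-1) 0 0 (by simp) (by simp) (by simp) (by simp; abel)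
          (by simp))
      rw [a1] at this
      simp only [snext, sel4, X, cond_false, cond_true]
      rw [← this]
      congr 1
      simp [off, bI, add_assoc]
    · have a1 : f + e 0 - e 0 = f := by abel
      have := evoC w hw (f + e 0)
        (U (f + e 0) hf 1 0 0 (by simp) (by simp) (by simp) (by simp) (by simp))
        (U (f + e 0 - e 1) hf 1 (-1) 0 (by simp) (by simp) (by simp) (by simp; abel) (by simp))
        (by rw [a1]; exact hf)
        (U (f + e 0 - e 0 - e 1) hf 0 (-1) 0 (by simp) (by simp) (by simp) (by simp; abel)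
          (by simp))
      rw [a1] at this
      simp only [snext, sel4, X, cond_false, cond_true]
      rw [← this]
      congr 1
      simp [off, bI, add_assoc]
    · have a1 : f + e 0 + e 1 - e 0 = f + e 1 := by abel
      have a2 : f + e 0 + e 1 - e 1 = f + e 0 := by abel
      have a3 : f + e 0 + e 1 - e 0 - e 1 = f := by abel
      have := evoD w hw (f + e 0 + e 1)
        (U (f + e 0 + e 1) hf 1 1 0 (by simp) (by simp) (by simp) (by simp) (by simp))
        (U (f + e 0 + e 1 - e 1) hf 1 0 0 (by simp) (by simp) (by simp) (by simp) (by simp))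
        (U (f + e 0 + e 1 - e 0) hf 0 1 0 (by simp) (by simp) (by simp) (by simp; abel) (by simp))
        (by rw [a3]; exact hf)
      rw [a1, a2] at this
      simp only [snext, sel4, X, cond_true]
      rw [← this]
      congr 1
      simp [off, bI, add_assoc]
  have h2 : ∀ i j, ss w (f + off (i, j, 2)) = !(ss w (f + off (i, j, 1))) := by
    intro i j
    have e1 : f + off (i, j, 2) = f + off (i, j, 1) + e 2 := by
      have : (((2 : Fin 3) : ℕ) : ℤ) = 2 := rfl
      have h' : (((1 : Fin 3) : ℕ) : ℤ) = 1 := rfl
      simp only [off, this, h', one_smul, two_smul]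
      abel
    have h' : (((1 : Fin 3) : ℕ) : ℤ) = 1 := rfl
    rw [e1]
    have bb : ∀ b : Bool, |bI b| ≤ 1 := by decide
    have bb' : ∀ b : Bool, |bI b - 1| ≤ 1 := by decide
    apply evo0 w hw
    · exact U _ hf (bI i) (bI j) 1 (bb i) (bb j) (by simp)
        (by simp only [off, h']; abel) (by simp)
    · exact U _ hf (bI i) (bI j - 1) 1 (bb i) (bb' j) (by simp)
        (by simp only [off, h', sub_smul, one_smul]; abel) (by simp)
    · exact U _ hf (bI i - 1) (bI j) 1 (bb' i) (bb j) (by simp)
        (by simp only [off, h', sub_smul, one_smul]; abel) (by simp)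
    · exact U _ hf (bI i - 1) (bI j - 1) 1 (bb' i) (bb' j) (by simp)
        (by simp only [off, h', sub_smul, one_smul]; abel) (by simp)
  have hk := fin3 k
  rcases hk with rfl | rfl | rfl
  · rw [h0]; rfl
  · rw [h1]; rfl
  · rw [h2, h1]; rfl

theorem good_dat (w : V n → St) (hw : w ∈ Sys n) (f : V n) :
    good (t1 w f) (t1 w (f + e 1)) (t2 w f) (t2 w (f + e 0)) (ss w f)
      (ss w (f + e 0)) (ss w (f + e 1)) (ss w (f + e 0 + e 1)) = true := by
  have a1 : f + e 0 - e 0 = f := by abel
  have a2 : f + e 1 - e 1 = f := by abel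
  have a3 : f + e 0 + e 1 - e 0 = f + e 1 := by abel
  have a4 : f + e 0 + e 1 - e 1 = f + e 0 := by abel
  have p1 := parity w hw f
  have p2 := parity w hw (f + e 0)
  have p3 := parity w hw (f + e 1)
  have p4 := parity w hw (f + e 0 + e 1)
  unfold good ss
  rw [a1, a2, a3, a4]
  rw [a1] at p2
  rw [a2] at p3
  rw [a3, a4] at p4
  have g1 : ∀ b x l y : Bool, ((b ^^ x) ^^ (l ^^ y)) = true →
      (!(b ^^ l) || (sfun b x l y == b)) = true := by decide
  have g2 : ∀ x b r y : Bool, ((x ^^ b) ^^ (r ^^ y)) = true →
      (!(b ^^ r) || (sfun x b r y == b)) = true := by decide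
  have g3 : ∀ tp x y l : Bool, ((tp ^^ x) ^^ (y ^^ l)) = true →
      (!(tp ^^ l) || (sfun tp x y l == tp)) = true := by decide
  have g4 : ∀ x tp y r : Bool, ((x ^^ tp) ^^ (y ^^ r)) = true →
      (!(tp ^^ r) || (sfun x tp y r == tp)) = true := by decide
  rw [g1 _ _ _ _ p1, g2 _ _ _ _ p2, g3 _ _ _ _ p3, g4 _ _ _ _ p4]
  rfl

theorem off_step0 (j : Bool) (k : Fin 3) (f : V n) :
    f + off (false, j, k) + e 0 = f + off (true, j, k) := by
  simp only [off, bI]; simp; abel

theorem off_step1 (i : Bool) (k : Fin 3) (f : V n) :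
    f + off (i, false, k) + e 1 = f + off (i, true, k) := by
  simp only [off, bI]; simp; abel

theorem off_step2 (i j : Bool) (f : V n) :
    f + off (i, j, 0) + e 2 = f + off (i, j, 1) := by
  have h0 : (((0 : Fin 3) : ℕ) : ℤ) = 0 := rfl
  have h' : (((1 : Fin 3) : ℕ) : ℤ) = 1 := rfl
  simp only [off, h0, h', zero_smul, one_smul]; abel

theorem off_step3 (i j : Bool) (f : V n) :
    f + off (i, j, 1) + e 2 = f + off (i, j, 2) := by
  have h0 : (((2 : Fin 3) : ℕ) : ℤ) = 2 := rfl
  have h' : (((1 : Fin 3) : ℕ) : ℤ) = 1 := rfl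
  simp only [off, h0, h', two_smul, one_smul]; abel

/-- above a moved face there is no move -/
theorem Phi_above (w : V n → St) (hw : w ∈ Sys n) (f : V n) (hf : hh w f = true) (i j : Bool) :
    Phi w (f + off (i, j, 2) + e 2) = (2, !(ss w (f + off (i, j, 2)))) := by
  have U := fun u => ev_unique w hw f u hf
  have bb : ∀ b : Bool, |bI b| ≤ 1 := by decide
  have bb' : ∀ b : Bool, |bI b - 1| ≤ 1 := by decide
  have h0 : (((2 : Fin 3) : ℕ) : ℤ) = 2 := rfl
  rw [Phi_none]
  · rw [evo0 w hw]
    · exact U _ (bI i) (bI j) 2 (bb i) (bb j) (by norm_num) (by simp only [off, h0]; abel)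
        (by simp)
    · exact U _ (bI i) (bI j - 1) 2 (bb i) (bb' j) (by norm_num)
        (by simp only [off, h0, sub_smul, one_smul]; abel) (by simp)
    · exact U _ (bI i - 1) (bI j) 2 (bb' i) (bb j) (by norm_num)
        (by simp only [off, h0, sub_smul, one_smul]; abel) (by simp)
    · exact U _ (bI i - 1) (bI j - 1) 2 (bb' i) (bb' j) (by norm_num)
        (by simp only [off, h0, sub_smul, one_smul]; abel) (by simp)
  · rintro ⟨i', j', k'⟩
    have hk := k'.2
    refine U _ (bI i - bI i') (bI j - bI j') (3 - ((k' : ℕ) : ℤ)) (bI_abs _ _) (bI_abs _ _)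
      (by rw [abs_le]; constructor <;> omega) ?_ (by omega)
    simp only [off, h0, sub_smul]
    have : (3 : ℤ) • (e 2 : V n) = (2 : ℤ) • e 2 + e 2 := by
      rw [show (3 : ℤ) = 2 + 1 by norm_num, add_smul, one_smul]
    rw [this]; abel

/-- below a moved face there is no move -/
theorem Phi_below (w : V n → St) (hw : w ∈ Sys n) (f : V n) (hf : hh w f = true) (i j : Bool) :
    Phi w (f + off (i, j, 0) - e 2) = (2, !(ss w (f + off (i, j, 0)))) := by
  have U := fun u => ev_unique w hw f u hf
  have bb : ∀ b : Bool, |bI b| ≤ 1 := by decide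
  have bb' : ∀ b : Bool, |bI b - 1| ≤ 1 := by decide
  have h0 : (((0 : Fin 3) : ℕ) : ℤ) = 0 := rfl
  rw [Phi_none]
  · have := evo0 w hw (f + off (i, j, 0) - e 2)
      (U _ (bI i) (bI j) (-1) (bb i) (bb j) (by norm_num) (by simp only [off, h0]; simp; abel)
        (by simp))
      (U _ (bI i) (bI j - 1) (-1) (bb i) (bb' j) (by norm_num)
        (by simp only [off, h0, sub_smul, one_smul]; simp; abel) (by simp))
      (U _ (bI i - 1) (bI j) (-1) (bb' i) (bb j) (by norm_num)
        (by simp only [off, h0, sub_smul, one_smul]; simp; abel) (by simp))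
      (U _ (bI i - 1) (bI j - 1) (-1) (bb' i) (bb' j) (by norm_num)
        (by simp only [off, h0, sub_smul, one_smul]; simp; abel) (by simp))
    rw [sub_add_cancel] at this
    rw [this]
    simp
  · rintro ⟨i', j', k'⟩
    have hk := k'.2
    refine U _ (bI i - bI i') (bI j - bI j') (-1 - ((k' : ℕ) : ℤ)) (bI_abs _ _) (bI_abs _ _)
      (by rw [abs_le]; constructor <;> omega) ?_ (by omega)
    simp only [off, h0, sub_smul]
    simp
    abel

theorem Phi_step (w : V n → St) (hw : w ∈ Sys n) (v : V n) :
    (Phi w v = (0, true) → Phi w (v + e 0) = (0, false)) ∧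
    (Phi w v = (0, false) → Phi w (v - e 0) = (0, true)) ∧
    (Phi w v = (1, true) → Phi w (v + e 1) = (1, false)) ∧
    (Phi w v = (1, false) → Phi w (v - e 1) = (1, true)) ∧
    (Phi w v = (2, true) → Phi w (v + e 2) = (2, false)) ∧
    (Phi w v = (2, false) → Phi w (v - e 2) = (2, true)) := by
  by_cases hex : ∃ o, hh w (v - off o) = true
  · obtain ⟨⟨i, j, k⟩, hf⟩ := hex
    obtain ⟨f, hfv⟩ : ∃ f, v - off (i, j, k) = f := ⟨_, rfl⟩
    rw [hfv] at hf
    have hv : v = f + off (i, j, k) := by rw [← hfv]; abel
    have hg := good_dat w hw f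
    obtain ⟨T1, T2⟩ := tab1 _ _ _ _ _ _ _ _ hg i j k
    obtain ⟨T3, T4⟩ := tab2 _ _ _ _ _ _ _ _ hg i j k
    obtain ⟨T5, T6, T7, T8⟩ := tab3 _ _ _ _ _ _ _ _ hg i j
    obtain ⟨T9, T10, T11, T12⟩ := tab4 _ _ _ _ _ _ _ _ hg i j
    have hd := Phi_ev w hw f hf
    rw [hv, hd]
    refine ⟨?_, ?_, ?_, ?_, ?_, ?_⟩
    · intro h
      obtain ⟨h1, h2⟩ := T1 h
      subst h1
      rw [off_step0, hd]
      exact h2
    · intro h
      obtain ⟨h1, h2⟩ := T2 h
      subst h1
      rw [← off_step0, add_sub_cancel_right, hd]
      exact h2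
    · intro h
      obtain ⟨h1, h2⟩ := T3 h
      subst h1
      rw [off_step1, hd]
      exact h2
    · intro h
      obtain ⟨h1, h2⟩ := T4 h
      subst h1
      rw [← off_step1, add_sub_cancel_right, hd]
      exact h2
    · intro h
      have hk := fin3 k
      rcases hk with rfl | rfl | rfl
      · rw [off_step2, hd]
        exact T5 h
      · rw [off_step3, hd]
        exact T6 h
      · rw [Phi_above w hw f hf, ss_corner w hw f hf, T7 h]
        rfl
    · intro h
      have hk := fin3 k
      rcases hk with rfl | rfl | rfl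
      · rw [Phi_below w hw f hf, ss_corner w hw f hf, T10 h]
        rfl
      · rw [← off_step2, add_sub_cancel_right, hd]
        exact T8 h
      · rw [← off_step3, add_sub_cancel_right, hd]
        exact T9 h
  · push Not at hex
    have hno : ∀ o, hh w (v - off o) = false := fun o => by simpa using hex o
    rw [Phi_none w v hno]
    have hs : ss w (v + e 2) = !(ss w v) := by
      have q0 := hno (false, false, 0)
      have q1 := hno (false, true, 0)
      have q2 := hno (true, false, 0)
      have q3 := hno (true, true, 0)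
      have r1 : v - off (false, false, 0) = v := by simp [off, bI]
      have r2 : v - off (false, true, 0) = v - e 1 := by simp [off, bI]
      have r3 : v - off (true, false, 0) = v - e 0 := by simp [off, bI]
      have r4 : v - off (true, true, 0) = v - e 0 - e 1 := by
        simp [off, bI]; abel
      rw [r1] at q0
      rw [r2] at q1
      rw [r3] at q2
      rw [r4] at q3
      exact evo0 w hw v q0 q1 q2 q3
    have hs' : ss w v = !(ss w (v - e 2)) := by
      have q0 := hno (false, false, 1)
      have q1 := hno (false, true, 1)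
      have q2 := hno (true, false, 1)
      have q3 := hno (true, true, 1)
      have r1 : v - off (false, false, 1) = v - e 2 := by simp [off, bI]
      have r2 : v - off (false, true, 1) = v - e 2 - e 1 := by simp [off, bI]; abel
      have r3 : v - off (true, false, 1) = v - e 2 - e 0 := by simp [off, bI]; abel
      have r4 : v - off (true, true, 1) = v - e 2 - e 0 - e 1 := by
        simp [off, bI]; abel
      rw [r1] at q0
      rw [r2] at q1
      rw [r3] at q2
      rw [r4] at q3
      have := evo0 w hw (v - e 2) q0 q1 q2 q3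
      rw [sub_add_cancel] at this
      exact this
    refine ⟨?_, ?_, ?_, ?_, ?_, ?_⟩
    · intro h; simp at h
    · intro h; simp at h
    · intro h; simp at h
    · intro h; simp at h
    · intro h
      have h1 : ss w v = true := (Prod.mk.inj h).2
      rw [h1] at hs
      by_cases hex' : ∃ o, hh w (v + e 2 - off o) = true
      · obtain ⟨⟨i, j, k⟩, hf⟩ := hex'
        have hk := fin3 k
        rcases hk with rfl | rfl | rfl
        · obtain ⟨f, hfv⟩ : ∃ f, v + e 2 - off (i, j, 0) = f := ⟨_, rfl⟩
          rw [hfv] at hf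
          have hv : v + e 2 = f + off (i, j, 0) := by rw [← hfv]; abel
          obtain ⟨T9, T10, T11, T12⟩ := tab4 _ _ _ _ _ _ _ _ (good_dat w hw f) i j
          rw [hv, Phi_ev w hw f hf]
          apply T11
          rw [← ss_corner w hw f hf, ← hv, hs]
          rfl
        · have : v + e 2 - off (i, j, 1) = v - off (i, j, 0) := by
            have := off_step2 i j (v - off (i, j, 0) - off (i, j, 1))
            have e3 : v - off (i, j, 0) - off (i, j, 1) + off (i, j, 0) + e 2 =
              v + e 2 - off (i, j, 1) := by abel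
            rw [e3] at this
            rw [this]; abel
          rw [this, hno] at hf
          exact Bool.noConfusion hf
        · have : v + e 2 - off (i, j, 2) = v - off (i, j, 1) := by
            have := off_step3 i j (v - off (i, j, 1) - off (i, j, 2))
            have e3 : v - off (i, j, 1) - off (i, j, 2) + off (i, j, 1) + e 2 =
              v + e 2 - off (i, j, 2) := by abel
            rw [e3] at this
            rw [this]; abel
          rw [this, hno] at hf
          exact Bool.noConfusion hf
      · push Not at hex'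
        rw [Phi_none w (v + e 2) (fun o => by simpa using hex' o), hs]
        rfl
    · intro h
      have h1 : ss w v = false := (Prod.mk.inj h).2
      rw [h1] at hs'
      have hs2 : ss w (v - e 2) = true := by
        revert hs'
        generalize ss w (v - e 2) = x
        revert x
        decide
      by_cases hex' : ∃ o, hh w (v - e 2 - off o) = true
      · obtain ⟨⟨i, j, k⟩, hf⟩ := hex'
        have hk := fin3 k
        rcases hk with rfl | rfl | rfl
        · have : v - e 2 - off (i, j, 0) = v - off (i, j, 1) := by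
            rw [← zero_add (off (i, j, 1)), ← off_step2]; abel
          rw [this, hno] at hf
          exact Bool.noConfusion hf
        · have : v - e 2 - off (i, j, 1) = v - off (i, j, 2) := by
            rw [← zero_add (off (i, j, 2)), ← off_step3]; abel
          rw [this, hno] at hf
          exact Bool.noConfusion hf
        · obtain ⟨f, hfv⟩ : ∃ f, v - e 2 - off (i, j, 2) = f := ⟨_, rfl⟩
          rw [hfv] at hf
          have hv : v - e 2 = f + off (i, j, 2) := by rw [← hfv]; abel
          obtain ⟨T9, T10, T11, T12⟩ := tab4 _ _ _ _ _ _ _ _ (good_dat w hw f) i j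
          rw [hv, Phi_ev w hw f hf]
          apply T12
          rw [← ss_corner w hw f hf, ← hv, hs2]
      · push Not at hex'
        rw [Phi_none w (v - e 2) (fun o => by simpa using hex' o), hs2]

end Q43.Dom
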