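import Mathlib
import Pool.Agent.Q43.Dom.Tiling

/-!
# Locality, equivariance and compactness
-/

namespace Q43.Dom

variable {n : ℕ}

theorem cl_refl {r : ℤ} (hr : 0 ≤ r) (v : V n) : cl r v v := fun i => by simpa using hr

theorem clm (v : V n) (a b c r : ℤ) (u : V n) (hu : u = v + a • e 0 + b • e 1 + c • e 2)
    (ha : |a| ≤ r) (hb : |b| ≤ r) (hc : |c| ≤ r) : cl r u v := by
  rw [hu]; exact cl_shift v ha hb hc

theorem ss_local (w w' : V n → St) (v : V n) (h : ∀ u, cl 1 u v → w u = w' u) :
    ss w v = ss w' v := by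
  unfold ss t1 t2
  rw [h v (cl_refl (by norm_num) v),
    h (v - e 0) (clm v (-1) 0 0 1 _ (by simp [sub_eq_add_neg]) (by simp) (by simp) (by simp)),
    h (v - e 1) (clm v 0 (-1) 0 1 _ (by simp [sub_eq_add_neg]) (by simp) (by simp) (by simp))]

theorem dat_local (w w' : V n → St) (f : V n) (o : Bool × Bool × Fin 3)
    (h : ∀ u, cl 2 u f → w u = w' u) : dat w f o = dat w' f o := by
  have c0 : cl 1 (f + e 0) f := clm f 1 0 0 1 _ (by simp) (by simp) (by simp) (by simp)
  have c1 : cl 1 (f + e 1) f := clm f 0 1 0 1 _ (by simp) (by simp) (by simp) (by simp)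
  have c2 : cl 1 (f + e 0 + e 1) f := clm f 1 1 0 1 _ (by simp) (by simp) (by simp) (by simp)
  have c3 : cl 1 f f := cl_refl (by norm_num) f
  have s : ∀ g, cl 1 g f → ss w g = ss w' g := fun g hg =>
    ss_local w w' g (fun u hu => h u (cl_trans hu hg))
  have q : ∀ g, cl 1 g f → w g = w' g := fun g hg => h g (cl_mono (by norm_num) hg)
  unfold dat
  rw [s _ c0, s _ c1, s _ c2, s _ c3]
  unfold t1 t2
  rw [q _ c0, q _ c1, q _ c3]

theorem off_cl (v : V n) (o : Bool × Bool × Fin 3) : cl 2 (v - off o) v := by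
  obtain ⟨i, j, k⟩ := o
  have hk := k.2
  have bb : ∀ b : Bool, |-bI b| ≤ 2 := by decide
  refine clm v (-bI i) (-bI j) (-((k : ℕ) : ℤ)) 2 _ ?_ (bb i) (bb j)
    (by rw [abs_le]; constructor <;> omega)
  simp only [off, neg_smul]
  abel

theorem Phi_local (w w' : V n → St) (v : V n) (h : ∀ u, cl 5 u v → w u = w' u) :
    Phi w v = Phi w' v := by
  have h1 : (fun o => hh w (v - off o)) = fun o => hh w' (v - off o) := by
    funext o
    unfold hh
    rw [h _ (cl_mono (by norm_num) (off_cl v o))]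
  unfold Phi
  rw [h1]
  cases hs : sel (fun o => hh w' (v - off o)) with
  | none =>
    simp only
    rw [ss_local w w' v (fun u hu => h u (cl_mono (by norm_num) hu))]
  | some o =>
    simp only
    exact dat_local w w' _ o (fun u hu => h u (cl_mono (by norm_num)
      (cl_trans hu (off_cl v o))))

/-- The shift. -/
def shw (u : V n) (w : V n → St) : V n → St := fun v => w (u + v)

theorem ss_shift (u : V n) (w : V n → St) (v : V n) : ss (shw u w) v = ss w (u + v) := by
  unfold ss t1 t2 shw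
  simp only [add_sub_assoc]

theorem dat_shift (u : V n) (w : V n → St) (f : V n) (o : Bool × Bool × Fin 3) :
    dat (shw u w) f o = dat w (u + f) o := by
  unfold dat
  simp only [ss_shift]
  unfold t1 t2 shw
  simp only [add_assoc]

theorem Phi_shift (u : V n) (w : V n → St) (v : V n) : Phi (shw u w) v = Phi w (u + v) := by
  have h1 : (fun o => hh (shw u w) (v - off o)) = fun o => hh w (u + v - off o) := by
    funext o
    unfold hh shw
    rw [add_sub_assoc]
  unfold Phi
  rw [h1]
  cases hs : sel (fun o => hh w (u + v - off o)) with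
  | none =>
    simp only
    rw [ss_shift]
  | some o =>
    simp only
    rw [dat_shift, add_sub_assoc]

theorem Sys_shift (u : V n) (w : V n → St) (hw : w ∈ Sys n) : shw u w ∈ Sys n := by
  obtain ⟨w1, w2, w3, w4⟩ := hw
  have p1 : ∀ v, t1 (shw u w) v = t1 w (u + v) := fun v => rfl
  have p2 : ∀ v, t2 (shw u w) v = t2 w (u + v) := fun v => rfl
  have p3 : ∀ v, hh (shw u w) v = hh w (u + v) := fun v => rfl
  refine ⟨?_, ?_, ?_, ?_⟩
  · intro v
    simp only [p1, p2, ← add_sub_assoc]
    exact w1 (u + v)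
  · intro v
    simp only [p1, p3, ← add_sub_assoc, ← add_assoc]
    exact w2 (u + v)
  · intro v
    simp only [p2, p3, ← add_sub_assoc, ← add_assoc]
    exact w3 (u + v)
  · intro v a b c ha hb hc h1 h2
    simp only [p3, ← add_assoc] at h1 h2
    exact w4 (u + v) a b c ha hb hc h1 h2

theorem Sys_nonempty : (Sys n).Nonempty := by
  refine ⟨fun v => (decide ((v 0 + v 2) % 2 = 0), decide (v 2 % 2 = 1), false), ?_, ?_, ?_, ?_⟩
  · intro v
    have e00 : (v - e 0 : V n) 0 = v 0 - 1 := by rw [Pi.sub_apply, e_same]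
    have e02 : (v - e 0 : V n) 2 = v 2 := by rw [Pi.sub_apply, e_ne n02.symm, sub_zero]
    have e12 : (v - e 1 : V n) 2 = v 2 := by rw [Pi.sub_apply, e_ne n12.symm, sub_zero]
    simp only [t1, t2, e00, e02, e12]
    rcases Int.emod_two_eq_zero_or_one (v 0 + v 2) with h | h
    · have h' : ¬ ((v 0 - 1 + v 2) % 2 = 0) := by omega
      simp [h, h']
    · have h' : ((v 0 - 1 + v 2) % 2 = 0) := by omega
      simp [h, h']
  · intro v
    have e20 : (v + e 2 : V n) 0 = v 0 := by rw [Pi.add_apply, e_ne n02, add_zero]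
    have e22 : (v + e 2 : V n) 2 = v 2 + 1 := by rw [Pi.add_apply, e_same]
    simp only [t1, hh, e20, e22]
    rcases Int.emod_two_eq_zero_or_one (v 0 + v 2) with h | h
    · have h' : ¬ ((v 0 + (v 2 + 1)) % 2 = 0) := by omega
      simp [h, h']
    · have h' : ((v 0 + (v 2 + 1)) % 2 = 0) := by omega
      simp [h, h']
  · intro v
    have e22 : (v + e 2 : V n) 2 = v 2 + 1 := by rw [Pi.add_apply, e_same]
    simp only [t2, hh, e22]
    rcases Int.emod_two_eq_zero_or_one (v 2) with h | h
    · have h' : ((v 2 + 1) % 2 = 1) := by omega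
      simp [h, h']
    · have h' : ¬ ((v 2 + 1) % 2 = 1) := by omega
      simp [h, h']
  · intro v a b c _ _ _ h
    simp [hh] at h

/-- a condition on finitely many coordinates is closed -/
theorem closed_of_local {ι α : Type*} [TopologicalSpace α] [DiscreteTopology α]
    (P : (ι → α) → Prop) (T : Set ι) (hT : T.Finite)
    (h : ∀ w w' : ι → α, (∀ u ∈ T, w u = w' u) → P w → P w') : IsClosed {w | P w} := by
  rw [← isOpen_compl_iff, isOpen_iff_mem_nhds]
  intro w hw
  have ho : IsOpen (⋂ u ∈ T, (fun x : ι → α => x u) ⁻¹' {w u}) := by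
    apply hT.isOpen_biInter
    intro u _
    exact (isOpen_discrete _).preimage (continuous_apply u)
  have hm : w ∈ (⋂ u ∈ T, (fun x : ι → α => x u) ⁻¹' {w u}) := by simp
  refine Filter.mem_of_superset (ho.mem_nhds hm) ?_
  intro w' hw' hP
  apply hw
  refine h w' w ?_ hP
  intro u hu
  simp only [Set.mem_iInter, Set.mem_preimage, Set.mem_singleton_iff] at hw'
  exact hw' u hu

theorem cl_finite (r : ℤ) (v : V n) : {u : V n | cl r u v}.Finite := by
  refine (Set.finite_Icc (v - fun _ => r) (v + fun _ => r)).subset ?_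
  intro u hu
  constructor
  · intro i
    have := hu i
    rw [abs_le] at this
    simp only [Pi.sub_apply]
    omega
  · intro i
    have := hu i
    rw [abs_le] at this
    simp only [Pi.add_apply]
    omega

theorem Sys_closed : IsClosed (Sys n) := by
  have h : Sys n = ⋂ v : V n, {w : V n → St |
      (((t1 w v ^^ t1 w (v - e 0)) ^^ (t2 w v ^^ t2 w (v - e 1))) = true) ∧
    (t1 w (v + e 2) = !(t1 w v ^^ (hh w v ^^ hh w (v - e 1)))) ∧
    (t2 w (v + e 2) = !(t2 w v ^^ (hh w v ^^ hh w (v - e 0)))) ∧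
    (∀ (a b c : ℤ), |a| ≤ 1 → |b| ≤ 1 → |c| ≤ 3 → hh w v = true →
      hh w (v + a • e 0 + b • e 1 + c • e 2) = true → a = 0 ∧ b = 0 ∧ c = 0)} := by
    ext w
    simp only [Set.mem_iInter]
    constructor
    · rintro ⟨w1, w2, w3, w4⟩ v
      exact ⟨w1 v, w2 v, w3 v, w4 v⟩
    · intro h
      exact ⟨fun v => (h v).1, fun v => (h v).2.1, fun v => (h v).2.2.1, fun v => (h v).2.2.2⟩
  rw [h]
  apply isClosed_iInter
  intro v
  apply closed_of_local _ {u : V n | cl 3 u v} (cl_finite 3 v)
  intro w w' hww hP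
  obtain ⟨w1, w2, w3, w4⟩ := hP
  have c0 : w v = w' v := hww v (cl_refl (by norm_num) v)
  have c1 : w (v - e 0) = w' (v - e 0) := hww _
    (clm v (-1) 0 0 3 _ (by simp [sub_eq_add_neg]) (by simp) (by simp) (by simp))
  have c2 : w (v - e 1) = w' (v - e 1) := hww _
    (clm v 0 (-1) 0 3 _ (by simp [sub_eq_add_neg]) (by simp) (by simp) (by simp))
  have c3 : w (v + e 2) = w' (v + e 2) := hww _
    (clm v 0 0 1 3 _ (by simp) (by simp) (by simp) (by simp))
  unfold t1 t2 hh at *
  refine ⟨?_, ?_, ?_, ?_⟩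
  · rw [← c0, ← c1, ← c2]; exact w1
  · rw [← c0, ← c2, ← c3]; exact w2
  · rw [← c0, ← c1, ← c3]; exact w3
  · intro a b c ha hb hc h1 h2
    rw [← c0] at h1
    rw [← hww _ (clm v a b c 3 _ rfl (ha.trans (by norm_num)) (hb.trans (by norm_num)) hc)] at h2
    exact w4 a b c ha hb hc h1 h2

/-- The embedding of the directions `0, 1, 2`. -/
def emb (a : Fin 3 × Bool) : Fin (n + 3) × Bool := (Fin.castLE (by omega) a.1, a.2)

/-- The domino tiling. -/
noncomputable def Psi (w : V n → St) (v : V n) : Fin (n + 3) × Bool := emb (Phi w v)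

theorem Psi_continuous : Continuous (Psi (n := n)) := by
  apply continuous_pi
  intro v
  rw [continuous_iff_isClosed]
  intro s _
  apply closed_of_local (fun w => Psi w v ∈ s) {u : V n | cl 5 u v} (cl_finite 5 v)
  intro w w' hww h
  unfold Psi at *
  rw [Phi_local w w' v hww] at h
  exact h

theorem image_closed : IsClosed (Psi '' Sys n) :=
  (Sys_closed.isCompact.image Psi_continuous).isClosed

theorem Psi_tiling (w : V n → St) (hw : w ∈ Sys n) (v : V n) :
    Psi w (v + Pi.single (Psi w v).1 (if (Psi w v).2 then 1 else -1)) =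
      ((Psi w v).1, !(Psi w v).2) := by
  obtain ⟨h1, h2, h3, h4, h5, h6⟩ := Phi_step w hw v
  have k0 : (Fin.castLE (by omega) (0 : Fin 3) : Fin (n + 3)) = 0 := by ext; simp
  have k1 : (Fin.castLE (by omega) (1 : Fin 3) : Fin (n + 3)) = 1 := by ext; simp
  have k2 : (Fin.castLE (by omega) (2 : Fin 3) : Fin (n + 3)) = 2 := by
    ext; rw [Fin.val_castLE, Fin.val_two]; rfl
  have hneg : ∀ i : Fin (n + 3), (Pi.single i (-1) : V n) = - e i := by
    intro i; unfold e; rw [← Pi.single_neg]
  have hpos : ∀ i : Fin (n + 3), (Pi.single i 1 : V n) = e i := fun i => rfl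
  unfold Psi emb
  have hall : ∀ d : Fin 3 × Bool, d = (0, true) ∨ d = (0, false) ∨ d = (1, true) ∨ d = (1, false) ∨
      d = (2, true) ∨ d = (2, false) := by decide
  rcases hall (Phi w v) with h | h | h | h | h | h
  · have := h1 h
    simp only [h, k0, if_true, hpos, this]; rfl
  · have := h2 h
    simp only [h, k0, hneg, Bool.false_eq_true, if_false, ← sub_eq_add_neg, this]; rfl
  · have := h3 h
    simp only [h, k1, if_true, hpos, this]; rfl
  · have := h4 h
    simp only [h, k1, hneg, Bool.false_eq_true, if_false, ← sub_eq_add_neg, this]; rfl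
  · have := h5 h
    simp only [h, k2, if_true, hpos, this]; rfl
  · have := h6 h
    simp only [h, k2, hneg, Bool.false_eq_true, if_false, ← sub_eq_add_neg, this]; rfl

theorem Psi_glue (w w' : V n → St) (hw : w ∈ Sys n) (hw' : w' ∈ Sys n) (A B : Set (V n))
    (hAB : ∀ a ∈ A, ∀ b ∈ B, (3001 : ℝ) ≤ dist a b) :
    ∃ w'' ∈ Sys n, (∀ v ∈ A, Psi w'' v = Psi w v) ∧ (∀ v ∈ B, Psi w'' v = Psi w' v) := by
  obtain ⟨w'', h, hA, hB⟩ := glue w w' hw hw' A B (by
    intro a ha b hb hcl
    have h1 := hAB a ha b hb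
    have h2 : dist a b ≤ 3000 := by
      rw [dist_pi_le_iff (by norm_num)]
      intro i
      have := hcl i
      rw [Int.dist_eq]
      exact_mod_cast this
    linarith)
  refine ⟨w'', h, ?_, ?_⟩
  · intro v hv
    unfold Psi
    rw [Phi_local w'' w v (fun u hu => hA u ⟨v, hv, hu⟩)]
  · intro v hv
    unfold Psi
    rw [Phi_local w'' w' v (fun u hu => hB u ⟨v, hv, hu⟩)]

end Q43.Dom
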